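import Pool.Agent.Work.MP_8f87b2_h41.InAJ0
import Pool.Agent.Work.MP_8f87b2_h40.JG

/-!
MP_8f87b2_co: rows I-A-JM, I-A-J3 (and J5, NM): the inner words of type A (at least one bead, `k ≥ 10`) are not words of
the gadgets of the classes `(s, 2^a)`.
-/

set_option autoImplicit false

namespace Pool.OddHC

open Equiv J

variable {k n : ℕ} {F : Set (Cyc k)} {g : DG k}

theorem TyA.inner_J (h : TyA F g) (hk : 10 ≤ k) (hm : ∀ p ∈ F, 1 ≤ (contc p).count 1) (hn : 1 ≤ n)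
    {a : X k × X k} (ha : a ∈ g.arcs) {w : X k} (hw : w ∈ innA a) :
    (∀ Φ, ¬ IsPu n Φ w.1) ∧ (∀ G, ¬ IsUs n G w.1) ∧ ∀ Ψ, ¬ IsMx n Ψ w.1 := by
  obtain ⟨h1, h2, h3⟩ := h.inner_raw hk hm hn ha hw
  refine ⟨?_, ?_, ?_⟩
  · rintro Φ ⟨i, hi, i0, i4, e⟩
    exact h1 Φ i hi i0 i4 e
  · rintro G ⟨_, e⟩
    exact h2 G e
  · rintro Ψ ⟨t, D, u, i, ht, hD, hM, hi, hi', e⟩
    exact h3 Ψ t u i D ht hD.ht hM hi hi' e

/-- **no inner word of type A in a gadget of the class** -/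
theorem TyA.inner_JG (h : TyA F g) (hk : 10 ≤ k) (hm : ∀ p ∈ F, 1 ≤ (contc p).count 1) (hn : 1 ≤ n)
    {Bg : Finset (X k)} {P U M : Set (ZMod (2 * n + 1) → ℕ)} (hJ : JG n Bg P U M)
    {a : X k × X k} (ha : a ∈ g.arcs) {w : X k} (hw : w ∈ innA a) : w ∉ Bg := by
  obtain ⟨h1, h2, h3⟩ := h.inner_J hk hm hn ha hw
  intro hB
  rcases hJ w hB with ⟨Φ, _, e⟩ | ⟨G, _, e⟩ | ⟨Ψ, _, e⟩
  · exact h1 Φ e
  · exact h2 G e
  · exact h3 Ψ e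

end Pool.OddHC
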