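import Pool.Agent.Work.MP_8f87b2_h41.TL2

/-!
MP_8f87b2_co, row W-T-L1: **no common word of the windows of height 3 (type T) and the gadgets of type L1 (`k ≥ 10`)**.
-/

set_option autoImplicit false

namespace Pool.OddHC

open Finset Equiv BinaryTree Pool.Agent.Work.MP_8f87b2_co

namespace TL

open Ft

open L1

variable {k n : ℕ}

/-- the data of `RH n F` for `F (-1) = 0` -/
theorem LZ_RH (hn : 1 ≤ n) (F : ZMod (2 * n + 1) → ℕ) (h1 : F (-1) = 0) (hs : 1 ≤ ∑ x, F x) :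
    (Tsq.sq (RH n F)).2 = .nil ∧ LZ (RH n F) (Tsq.sq (RH n F)).1 := by
  have hW := Wd_RH hn F
  obtain ⟨_, r2, _⟩ := Wd_rd hW
  have pR := Wd_one hW
  have hB1 := caseB1 hn F h1
  obtain ⟨_, s2, _⟩ := Wd_rd hB1
  have pS := Wd_one hB1
  have hnum := rr_num hn F
  have hnum2 := rr_num hn (fun x => F (x - 1))
  have hsum : ∑ x, F (x - 1) = ∑ x, F x := Fintype.sum_equiv (Equiv.subRight 1) _ _ (fun x => rfl)
  have hg : gH n F = 2 * (n + ∑ x, F x) - 1 := by unfold gH; rw [if_neg (by omega)]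
  rw [hsum] at hnum2
  rw [hnum] at r2
  rw [hnum2] at s2
  refine ⟨caseB2 hn F h1, ⟨_, ?_, pR⟩, ⟨_, ?_, pS⟩, ?_, ?_⟩ <;> omega

/-- letters -/
theorem ln_RH (hn : 1 ≤ n) (F : ZMod (2 * n + 1) → ℕ) : ln (RH n F) = 2 * (n + 1 + ∑ x, F x) := by
  obtain ⟨_, r2, _⟩ := Wd_rd (Wd_RH hn F)
  rw [r2, rr_num hn F]

/-- heights -/
theorem ht_xw (hn : 1 ≤ n) (F : ZMod (2 * n + 1) → ℕ) {i : ℕ} (hi : i < 20) :
    OddHC.ht (H1.W (RH n F) .nil (Tsq.sq (RH n F)).2 (Tsq.sq (RH n F)).1 i) = gh (n + 2) i := by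
  have g := GR_RH hn F rfl
  have hR : OddHC.ht (RH n F) = n + 2 := ht_RH hn F
  exact ht_gW (by omega) hR (by rw [g.htS]; exact hR) g.htB hi

theorem ht_mirT (t : BinaryTree Unit) : OddHC.ht (Tsq.mir t) = OddHC.ht t := by
  induction t with
  | nil => rfl
  | node _ A B ihA ihB =>
    change OddHC.ht (app (Tsq.mir B) (Tsq.mir A △ .nil)) = _
    rw [ht_app, ht_node, ihA, ihB, ht_node]
    have h0 : OddHC.ht (BinaryTree.nil : BinaryTree Unit) = 0 := rfl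
    rw [h0]
    omega

theorem len15 (m a : ℕ) : (comps (H1.W (H1.R3 0 m a) (.nil △ .nil) (H1.th 0 .nil) (H1.S3 m a) 15)).length = 2 := rfl

theorem len10 {R B S : BinaryTree Unit} (hB : 0 < ln B) (hS : 0 < ln S) :
    3 ≤ (comps (H1.W R .nil B S 10)).length := by
  have hb : B ≠ .nil := by rintro rfl; exact absurd hB (by simp [ln_nil])
  have hs : S ≠ .nil := by rintro rfl; exact absurd hS (by simp [ln_nil])
  have h1 : 1 ≤ (comps B).length := by
    cases B with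
    | nil => exact absurd rfl hb
    | node _ A X => exact Nat.succ_le_succ (Nat.zero_le _)
  have h2 : 1 ≤ (comps S).length := by
    cases S with
    | nil => exact absurd rfl hs
    | node _ A X => exact Nat.succ_le_succ (Nat.zero_le _)
  change 3 ≤ (comps (app B ((.nil △ .nil) △ S))).length
  rw [comps_app, comps_node, List.length_append, List.length_cons]
  omega

theorem num_S3 (m a : ℕ) : (H1.S3 m a).numNodes ≠ 1 := by
  change (((.nil △ .nil) △ .nil) △ H1.L3 m a : BinaryTree Unit).numNodes ≠ 1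
  simp [BinaryTree.numNodes]

theorem num_R3 (m a : ℕ) : (H1.R3 0 m a).numNodes ≠ 1 := by
  change (((.nil △ .nil) △ H1.L3 m a) △ .nil : BinaryTree Unit).numNodes ≠ 1
  simp [BinaryTree.numNodes]

/-- **right words** -/
theorem T_xw (hn : 1 ≤ n) (F : ZMod (2 * n + 1) → ℕ) (hs : 1 ≤ ∑ x, F x) (hk : n + 5 + 2 * ∑ x, F x = k)
    (h10 : 10 ≤ k) {t m a : ℕ} (hT : H1.NodeT k t m a) {i j : ℕ} (hi : i < 20) (h5 : i ≠ 5) (hj : j < 20) :
    H1.W (RH n F) .nil (Tsq.sq (RH n F)).2 (Tsq.sq (RH n F)).1 i ≠ H1.w3 t m a j := by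
  intro e
  obtain ⟨ha, hm, hsz⟩ := hT
  have e' : H1.W (RH n F) .nil (Tsq.sq (RH n F)).2 (Tsq.sq (RH n F)).1 i =
      H1.W (H1.R3 t m a) (.nil △ .nil) (H1.th t .nil) (H1.S3 m a) j := e
  have hh := ht_xw hn F hi
  rw [e', ht_tW hj] at hh
  have hT' := FeT (b := t) (a := a) hm hj
  have hln := ln_RH hn F
  rcases Nat.eq_zero_or_pos (F (-1)) with h0 | h0
  · obtain ⟨hB, hZ⟩ := LZ_RH hn F h0 hs
    rw [hB] at e'
    obtain ⟨x, y, hx, hy, hf⟩ := FeZ hZ hi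
    rw [e'] at hf
    obtain ⟨u1, u2, u3, u4⟩ := hf.uniq hT'
    obtain ⟨r1, r2, r3⟩ := tcmpZR (t := t) (a := a) (m := m) hi h5 hj hx hy hln hn hs (by omega) hm ha (by omega)
      u1 u2 u3 u4 hh.symm
    subst r1 r2 r3
    have e2 : app (RH n F) ((.nil △ .nil) △ .nil) = (.nil △ .nil) △ (H1.S3 m a △ .nil) := e'
    have e3 := congrArg (fun w => (comps w).getLast?) e2
    simp only [comps_app, comps_node] at e3
    change (comps (RH n F) ++ [.nil △ .nil]).getLast? = some (H1.S3 m a) at e3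
    rw [List.getLast?_append, List.getLast?_singleton] at e3
    have e4 : (.nil △ .nil : BinaryTree Unit) = H1.S3 m a := by simpa using e3
    exact num_S3 m a (by rw [← e4]; rfl)
  · have hA := (LTX_RH hn F h0).toLT
    obtain ⟨x, y, hx, hy, hy0, hf⟩ := FeA hA hi
    have hlB : ln (Tsq.sq (RH n F)).2 = 2 * F (-1) := by
      obtain ⟨_, b2, _⟩ := Wd_rd (caseA hn F h0).2
      rw [b2, lv_num']
    rw [e'] at hf
    obtain ⟨u1, u2, u3, u4⟩ := hf.uniq hT'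
    obtain ⟨r1, r2, r3⟩ := tcmpAR (t := t) (a := a) (m := m) hi h5 hj hx hy hy0 hA.sum hA.s4 (by omega) hln hn (by omega)
      hm ha (by omega) u1 u2 u3 u4 hh.symm
    subst r1 r2 r3
    have l1 := len10 (R := RH n F) (B := (Tsq.sq (RH n F)).2) (S := (Tsq.sq (RH n F)).1) (by omega)
      (by have := hA.s4; omega)
    rw [e', len15] at l1
    omega

/-- **mirrored words** -/
theorem T_xm (hn : 1 ≤ n) (F : ZMod (2 * n + 1) → ℕ) (hs : 1 ≤ ∑ x, F x) (hk : n + 5 + 2 * ∑ x, F x = k)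
    (h10 : 10 ≤ k) {t m a : ℕ} (hT : H1.NodeT k t m a) {i j : ℕ} (hi : i < 20) (h5 : i ≠ 5) (hj : j < 20) :
    Tsq.mir (H1.W (RH n F) .nil (Tsq.sq (RH n F)).2 (Tsq.sq (RH n F)).1 i) ≠ H1.w3 t m a j := by
  intro e
  obtain ⟨ha, hm, hsz⟩ := hT
  have e' : Tsq.mir (H1.W (RH n F) .nil (Tsq.sq (RH n F)).2 (Tsq.sq (RH n F)).1 i) =
      H1.W (H1.R3 t m a) (.nil △ .nil) (H1.th t .nil) (H1.S3 m a) j := e
  have hh := ht_xw hn F hi
  rw [← ht_mirT, e', ht_tW hj] at hh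
  have hT' := FeT (b := t) (a := a) hm hj
  have hln := ln_RH hn F
  rcases Nat.eq_zero_or_pos (F (-1)) with h0 | h0
  · obtain ⟨hB, hZ⟩ := LZ_RH hn F h0 hs
    rw [hB] at e'
    obtain ⟨x, y, hx, hy, hf⟩ := FeZ hZ hi
    have hf := hf.mir
    rw [e'] at hf
    obtain ⟨u1, u2, u3, u4⟩ := hf.uniq hT'
    obtain ⟨r1, r2, r3⟩ := tcmpZM (t := t) (a := a) (m := m) hi h5 hj hx hy hln hn hs (by omega) hm ha (by omega)
      u1 u2 u3 u4 hh.symm
    subst r1 r2 r3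
    have e2 : Tsq.mir (app (Tsq.sq (RH n F)).1 ((.nil △ .nil) △ .nil)) =
        H1.R3 0 m a △ ((.nil △ .nil) △ .nil) := e'
    have e3 := congrArg (fun w => (comps w).head?) e2
    simp only [comps_mir, comps_app, comps_node, List.reverse_append, List.map_append] at e3
    change some (Tsq.mir (.nil △ .nil)) = some (H1.R3 0 m a) at e3
    have e4 : Tsq.mir (.nil △ .nil : BinaryTree Unit) = H1.R3 0 m a := Option.some.inj e3
    exact num_R3 m a (by rw [← e4]; rfl)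
  · have hA := (LTX_RH hn F h0).toLT
    obtain ⟨x, y, hx, hy, hy0, hf⟩ := FeA hA hi
    have hlB : ln (Tsq.sq (RH n F)).2 = 2 * F (-1) := by
      obtain ⟨_, b2, _⟩ := Wd_rd (caseA hn F h0).2
      rw [b2, lv_num']
    have hf := hf.mir
    rw [e'] at hf
    obtain ⟨u1, u2, u3, u4⟩ := hf.uniq hT'
    obtain ⟨r1, r2, r3⟩ := tcmpAM (t := t) (a := a) (m := m) hi h5 hj hx hy hy0 hA.sum hA.s4 (by omega) hln hn (by omega)
      hm ha (by omega) u1 u2 u3 u4 hh.symm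
    subst r1 r2 r3
    have l1 := len10 (R := RH n F) (B := (Tsq.sq (RH n F)).2) (S := (Tsq.sq (RH n F)).1) (by omega)
      (by have := hA.s4; omega)
    have l2 : (comps (Tsq.mir (H1.W (RH n F) .nil (Tsq.sq (RH n F)).2 (Tsq.sq (RH n F)).1 10))).length =
        (comps (H1.W (RH n F) .nil (Tsq.sq (RH n F)).2 (Tsq.sq (RH n F)).1 10)).length := by
      rw [comps_mir, List.length_map, List.length_reverse]
    rw [e', len15] at l2
    omega

end TL

variable {k : ℕ} {F F' : Set (Cyc k)} {g g' : DG k}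

/-- **T against L1**: no common word (`k ≥ 10`) -/
theorem TyT.disj_L1 (hk : 10 ≤ k) (h : TyT F g) (h' : TyL1 F' g') : ∀ w ∈ g.B, w ∉ g'.B := by
  intro w hw hw'
  obtain ⟨t, m, a, j, hT, hj, e1⟩ := h.word hw
  rcases h' with ⟨n, Φ, w0, ha, _, rfl, rfl⟩ | ⟨n, Φ, w0, ha, _, rfl, rfl⟩
  · obtain ⟨i, hi, h5, rfl⟩ := L1.mem_gadJ.1 hw'
    rw [L1.xw_val ha.hn ha.hk w0 hi] at e1
    exact TL.T_xw ha.hn Φ ha.one ha.hk hk hT hi h5 hj e1
  · obtain ⟨i, hi, h5, rfl⟩ := mem_gadJM.1 hw'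
    rw [L1.xm_val ha.hn ha.hk w0 hi] at e1
    exact TL.T_xm ha.hn (J.rf Φ) (by rw [J.rf_sum]; exact ha.one) (by rw [J.rf_sum]; exact ha.hk) hk hT hi h5 hj e1

/-- the same as a statement on types -/
theorem dj_T_L1 (hk : 10 ≤ k) : Dj (k := k) TyT TyL1 := fun _ _ _ _ h h' _ => h.disj_L1 hk h'

end Pool.OddHC
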