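import Pool.Agent.Work.MP_8f87b2_h41.FewP
import Pool.Agent.Work.MP_8f87b2_h64.ECount
import Pool.Agent.Work.MP_8f87b2_h2.CntF
import Pool.Agent.Work.MP_8f87b2_tf.Lift

/-!
MP_8f87b2_co, P3: `O_k` has a spanning 2-regular subgraph which is invariant under the cyclic shifts and whose cycles
form at most `1 + fib (k - 1) * fib k` orbits under the shifts.
-/

set_option autoImplicit false

namespace Pool.OddHC

open Finset Equiv BinaryTree Pool.Agent.Work.MP_8f87b2_co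

/-- **P3** -/
theorem few_factor {k : ℕ} (hk : 1 ≤ k) :
    ∃ H : SimpleGraph (V k), H ≤ oddGraph k ∧ (∀ A, Nat.card (H.neighborSet A) = 2) ∧
      (∀ t A B, H.Adj (shift k t A) (shift k t B) ↔ H.Adj A B) ∧
      (∃ S : Finset (V k), S.card ≤ 1 + Nat.fib (k - 1) * Nat.fib k ∧
        ∀ A, ∃ B ∈ S, ∃ t, H.Reachable A (shift k t B)) ∧
      Nat.card H.ConnectedComponent ≤ (2 * k + 1) * (1 + Nat.fib (k - 1) * Nat.fib k) := by
  obtain ⟨G, hE, hd, hc⟩ := exists_E_card k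
  obtain ⟨π, z, S, hleg, -, h2, hS, hcard⟩ := few_perm G hE hd
  have hb : S.card ≤ 1 + Nat.fib (k - 1) * Nat.fib k := hcard.trans (hc.trans (Cnt2.sum_NB hk))
  obtain ⟨H, a1, a2, a3, a4, S', b1, b2⟩ := lift_factor hk π z hleg (fun w hw => (h2 w hw).1) S hS
  exact ⟨H, a1, a2, a3, ⟨S', b1.trans hb, b2⟩, a4.trans (Nat.mul_le_mul_left _ hb)⟩

end Pool.OddHC
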