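import Pool.Agent.Work.MP_8f87b2_mid.Dis

/-!
MP_8f87b2_co, P3a: disjoint E triples. A set `G` of pairwise disjoint pairs of T-cycles with an E triple gives a legal
permutation `π` such that every cycle of `TT * π` contains a T-cycle outside the pairs.
-/

set_option autoImplicit false

namespace Pool.OddHC

open Finset Equiv BinaryTree Pool.Agent.Work.MP_8f87b2_co

namespace Few

variable {k : ℕ}

/-- three different words on the cycle of `w` -/
def Thr (f : Perm (X k)) (w : X k) : Prop :=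
  ∃ a b c : X k, a ≠ b ∧ a ≠ c ∧ b ≠ c ∧ f.SameCycle w a ∧ f.SameCycle w b ∧ f.SameCycle w c

theorem Thr.not1 {f : Perm (X k)} {w : X k} (h : Thr f w) : f w ≠ w := by
  intro e
  obtain ⟨a, b, c, hab, -, -, ha, hb, -⟩ := h
  have key : ∀ x, f.SameCycle w x → x = w := by
    intro x hx
    exact ((Perm.SameCycle.eq_of_left hx e)).symm
  exact hab ((key a ha).trans (key b hb).symm)

theorem Thr.not2 {f : Perm (X k)} {w : X k} (h : Thr f w) : f (f w) ≠ w := by
  intro e
  obtain ⟨a, b, c, hab, hac, hbc, ha, hb, hc⟩ := h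
  have key : ∀ n : ℕ, (f ^ n) w = w ∨ (f ^ n) w = f w := by
    intro n
    induction n with
    | zero => exact Or.inl rfl
    | succ n ih =>
      rw [pow_succ', Perm.mul_apply]
      rcases ih with h | h
      · right; rw [h]
      · left; rw [h, e]
  have key2 : ∀ x, f.SameCycle w x → x = w ∨ x = f w := by
    intro x hx
    obtain ⟨n, hn⟩ := same_nat hx
    rw [← hn]
    exact key n
  rcases key2 a ha with h1 | h1 <;> rcases key2 b hb with h2 | h2 <;> rcases key2 c hc with h3 | h3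
  · exact hab (h1.trans h2.symm)
  · exact hab (h1.trans h2.symm)
  · exact hac (h1.trans h3.symm)
  · exact hbc (h2.trans h3.symm)
  · exact hbc (h2.trans h3.symm)
  · exact hac (h1.trans h3.symm)
  · exact hab (h1.trans h2.symm)
  · exact hab (h1.trans h2.symm)

/-- the facts about an E triple which are used -/
structure Tri (F : Set (Cyc k)) (g : DG k) (n : ℕ) : Prop where
  abs : g.Abs
  hF : ∀ w, w ∈ g.F ↔ cyc w ∈ F
  arcs : g.arcs = ∅
  ht : ∀ c ∈ F, htc c = n
  rank : ∀ w ∈ g.B, cyc w ∈ F ∨ n < htc (cyc w)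
  one : ∀ u ∈ g.B, ∀ v ∈ g.B, cyc u ∉ F → cyc v ∉ F → u = v
  new : ∀ c ∈ F, ∃ u ∈ g.B, cyc u = c
  old : ∃ u ∈ g.B, cyc u ∉ F
  three : ∃ a ∈ g.B, ∃ b ∈ g.B, ∃ c ∈ g.B, a ≠ b ∧ a ≠ c ∧ b ≠ c

theorem tri_of {F : Set (Cyc k)} {g : DG k} (h : TyE F g) : ∃ n, Tri F g n := by
  obtain ⟨j, r, f, hj, hlow, hT⟩ := h
  have hw := hT.words
  have hr := hT.rank
  have hp := hT.htp
  obtain ⟨a, b, c, ha, hb, hc, hbc, h2, h3, hF, hg⟩ := hT
  have hbF : cyc b ∈ F := by rw [hF]; exact Or.inl rfl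
  have hT' : IsTri .nil (ins r.1 (lf f)) .nil F g := ⟨a, b, c, ha, hb, hc, hbc, h2, h3, hF, hg⟩
  have hB : g.B = {a, b, c} := by rw [hg]; rfl
  refine ⟨htc (cyc b), hT'.abs, hT'.hF, hT'.arcs, fun c hc => hp c hc _ hbF, ?_, ?_, hT'.new, hT'.old, ?_⟩
  · intro w hwB
    rcases hr w hwB with h | h
    · exact Or.inl h
    · exact Or.inr (h _ hbF)
  · intro u hu v hv huF hvF
    rcases hw u hu with h | ⟨h, _⟩
    · rcases hw v hv with h' | ⟨h', _⟩
      · exact Subtype.ext (h.trans h'.symm)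
      · exact absurd h' hvF
    · exact absurd h huF
  · refine ⟨a, by rw [hB]; simp, b, by rw [hB]; simp, c, by rw [hB]; simp, ?_, ?_, ?_⟩
    · rintro rfl; exact lt_irrefl _ h3
    · rintro rfl; rw [h2] at h3; exact lt_irrefl _ h3
    · rintro rfl; exact hbc rfl

/-- **the permutation of the triples** -/
theorem build {Γ : Type} [DecidableEq Γ] (gad : Γ → DG k) (Fc : Γ → Set (Cyc k)) (hh : Γ → ℕ)
    (hT : ∀ g, Tri (Fc g) (gad g) (hh g))
    (hdis : ∀ g h, g ≠ h → ∀ w ∈ (gad g).B, w ∉ (gad h).B)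
    (hFdis : ∀ g h, g ≠ h → ∀ c ∈ Fc g, c ∉ Fc h) (s : Finset Γ) :
    ∃ (π : Perm (X k)) (z : X k → ZMod (2 * k + 1)), Legal π z ∧
      (∀ w, (∀ g ∈ s, w ∉ (gad g).B) → π w = w ∧ z w = 0) ∧
      (∀ x y, TT.SameCycle x y → (TT * π).SameCycle x y) ∧
      (∀ g ∈ s, ∀ u ∈ (gad g).B, ∀ v ∈ (gad g).B, (TT * π).SameCycle u v) ∧
      ∀ w, (∀ w', TT.SameCycle w w' → π w' = w' ∧ z w' = 0) ∨ Thr (TT * π) w := by
  induction s using Finset.induction_on_min_value hh with
  | empty =>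
    refine ⟨1, fun _ => 0, legal_one, fun w _ => ⟨rfl, rfl⟩, ?_, ?_, ?_⟩
    · intro x y h
      rw [mul_one]
      exact h
    · intro g hg
      simp at hg
    · intro w
      exact Or.inl fun w' _ => ⟨rfl, rfl⟩
  | insert a s ha hmin ih =>
    obtain ⟨π, z, hleg, hoff, hmono, hall, hinv⟩ := ih
    have hBa : ∀ w, w ∈ (gad a).B → ∀ g ∈ s, w ∉ (gad g).B := by
      intro w hw g hg
      refine hdis a g ?_ w hw
      rintro rfl
      exact ha hg
    have hFa : ∀ w, cyc w ∈ Fc a → ∀ g ∈ s, w ∉ (gad g).B := by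
      intro w hw g hg hwg
      have hag : a ≠ g := by
        rintro rfl
        exact ha hg
      rcases (hT g).rank w hwg with h1 | h1
      · exact hFdis a g hag _ hw h1
      · have h2 := (hT a).ht _ hw
        have h3 := hmin g hg
        omega
    have hf1 : ∀ w, w ∈ (gad a).B → (TT * π : Perm (X k)) w = TT w := by
      intro w hw
      rw [Perm.mul_apply, (hoff w (hBa w hw)).1]
    have hf2 : ∀ w, w ∈ (gad a).F → (TT * π : Perm (X k)) w = TT w := by
      intro w hw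
      rw [Perm.mul_apply, (hoff w (hFa w (((hT a).hF w).1 hw))).1]
    obtain ⟨ρ, y, hleg', hρ, hy, hm', hc'⟩ := (hT a).abs (TT * π) hf1 hf2
      (by rw [(hT a).arcs]; intro p hp; exact absurd hp (Set.notMem_empty _))
      (fun u hu v hv huF hvF => by
        have e := (hT a).one u hu v hv (fun h => huF (((hT a).hF u).2 h))
          (fun h => hvF (((hT a).hF v).2 h))
        rw [e])
    have hmono2 : ∀ x y, TT.SameCycle x y → (TT * (π * ρ)).SameCycle x y := by
      intro x y' h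
      rw [← mul_assoc]
      exact hm' _ _ (hmono x y' h)
    refine ⟨π * ρ, fun w => z w + y w, Legal.mul (B := (gad a).B) (fun w hw => (hoff w (hBa w hw)).1)
      (fun w hw => (hoff w (hBa w hw)).2) hρ hy hleg hleg', ?_, hmono2, ?_, ?_⟩
    · intro w hw
      have h1 := hoff w (fun g hg => hw g (mem_insert_of_mem hg))
      have h2 := hw a (mem_insert_self a s)
      refine ⟨?_, ?_⟩
      · rw [Perm.mul_apply, hρ w h2, h1.1]
      · simp only
        rw [h1.2, hy w h2, add_zero]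
    · intro g hg u hu v hv
      rw [← mul_assoc]
      rcases mem_insert.1 hg with rfl | hg
      · exact hc' u hu v hv
      · exact hm' _ _ (hall g hg u hu v hv)
    · intro w
      rcases hinv w with h1 | ⟨x1, x2, x3, h12, h13, h23, g1, g2, g3⟩
      · by_cases h2 : ∃ u ∈ (gad a).B, TT.SameCycle w u
        · right
          obtain ⟨u, hu, hwu⟩ := h2
          obtain ⟨x1, k1, x2, k2, x3, k3, h12, h13, h23⟩ := (hT a).three
          have h4 := hmono2 w u hwu
          rw [← mul_assoc] at h4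
          rw [← mul_assoc]
          exact ⟨x1, x2, x3, h12, h13, h23, h4.trans (hc' u hu x1 k1), h4.trans (hc' u hu x2 k2),
            h4.trans (hc' u hu x3 k3)⟩
        · left
          intro w' hw'
          have h3 : w' ∉ (gad a).B := fun h => h2 ⟨w', h, hw'⟩
          have h4 := h1 w' hw'
          refine ⟨?_, ?_⟩
          · rw [Perm.mul_apply, hρ w' h3, h4.1]
          · simp only
            rw [h4.2, hy w' h3, add_zero]
      · right
        rw [← mul_assoc]
        exact ⟨x1, x2, x3, h12, h13, h23, hm' _ _ g1, hm' _ _ g2, hm' _ _ g3⟩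

end Few

open Few

variable {k : ℕ}

/-- **P3a** -/
theorem few_perm (G : Set (Set (Cyc k))) (hE : ∀ F ∈ G, ∃ g, TyE F g)
    (hd : ∀ F ∈ G, ∀ F' ∈ G, ∀ c, c ∈ F → c ∈ F' → F = F') :
    ∃ (π : Perm (X k)) (z : X k → ZMod (2 * k + 1)) (S : Finset (X k)), Legal π z ∧
      (∀ w, (TT * π : Perm (X k)) w = w → π w = w ∧ z w = 0) ∧
      (∀ w, (TT * π : Perm (X k)) ((TT * π : Perm (X k)) w) = w →
        (π w = w ∧ z w = 0) ∧ (π (TT w) = TT w ∧ z (TT w) = 0)) ∧
      (∀ w, ∃ r ∈ S, (TT * π).SameCycle r w) ∧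
      S.card ≤ Nat.card {p : Cyc k // ∀ F ∈ G, p ∉ F} := by
  classical
  have hE' : ∀ F : {F : Set (Cyc k) // F ∈ G}, ∃ g : DG k, ∃ n, Tri F.1 g n ∧ TyE F.1 g := by
    intro F
    obtain ⟨g, hg⟩ := hE F.1 F.2
    obtain ⟨n, hn⟩ := tri_of hg
    exact ⟨g, n, hn, hg⟩
  choose gad hh hT hTy using hE'
  have hFdis : ∀ g h : {F : Set (Cyc k) // F ∈ G}, g ≠ h → ∀ c ∈ g.1, c ∉ h.1 := by
    intro g h hgh c hc hc'
    exact hgh (Subtype.ext (hd g.1 g.2 h.1 h.2 c hc hc'))
  have hdis : ∀ g h : {F : Set (Cyc k) // F ∈ G}, g ≠ h → ∀ w ∈ (gad g).B, w ∉ (gad h).B := by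
    intro g h hgh
    exact dj_EE _ _ _ _ (hTy g) (hTy h) (hFdis g h hgh)
  haveI : Fintype {F : Set (Cyc k) // F ∈ G} := Fintype.ofFinite _
  obtain ⟨π, z, hleg, hoff, hmono, hall, hinv⟩ :=
    build gad (fun F => F.1) hh hT hdis hFdis Finset.univ
  -- every word is joined to a word outside
  have hout : ∀ (n : ℕ) (w : X k), k ≤ htc (cyc w) + n →
      ∃ v : X k, (∀ F ∈ G, cyc v ∉ F) ∧ (TT * π).SameCycle v w := by
    intro n
    induction n with
    | zero =>
      intro w hw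
      by_cases h : ∀ F ∈ G, cyc w ∉ F
      · exact ⟨w, h, Perm.SameCycle.refl _ _⟩
      · exfalso
        push Not at h
        obtain ⟨F, hF, hwF⟩ := h
        obtain ⟨u, hu, huF⟩ := (hT ⟨F, hF⟩).old
        have h1 := ((hT ⟨F, hF⟩).rank u hu).resolve_left huF
        have h2 := (hT ⟨F, hF⟩).ht _ hwF
        have h3 : htc (cyc u) ≤ k := by
          have h4 := contc_sum (cyc u)
          unfold htc
          refine Multiset.sup_le.2 fun b hb => ?_
          have h5 := Multiset.single_le_sum (fun _ _ => Nat.zero_le _) b hb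
          omega
        omega
    | succ n ih =>
      intro w hw
      by_cases h : ∀ F ∈ G, cyc w ∉ F
      · exact ⟨w, h, Perm.SameCycle.refl _ _⟩
      · push Not at h
        obtain ⟨F, hF, hwF⟩ := h
        obtain ⟨u, hu, huF⟩ := (hT ⟨F, hF⟩).old
        obtain ⟨b, hb, hbw⟩ := (hT ⟨F, hF⟩).new _ hwF
        have h1 := ((hT ⟨F, hF⟩).rank u hu).resolve_left huF
        have h2 := (hT ⟨F, hF⟩).ht _ hwF
        obtain ⟨v, hv, hvu⟩ := ih u (by omega)
        refine ⟨v, hv, hvu.trans ((hall ⟨F, hF⟩ (mem_univ _) u hu b hb).trans ?_)⟩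
        exact hmono _ _ (cyc_eq.1 hbw)
  haveI : Finite (Cyc k) := inferInstance
  haveI : Fintype {p : Cyc k // ∀ F ∈ G, p ∉ F} := Fintype.ofFinite _
  refine ⟨π, z, (Finset.univ : Finset {p : Cyc k // ∀ F ∈ G, p ∉ F}).image (fun p => p.1.out), hleg,
    ?_, ?_, ?_, ?_⟩
  · intro w hw
    rcases hinv w with h | h
    · exact h w (Perm.SameCycle.refl _ _)
    · exact absurd hw h.not1
  · intro w hw
    rcases hinv w with h | h
    · exact ⟨h w (Perm.SameCycle.refl _ _), h (TT w) ⟨1, by rw [zpow_one]⟩⟩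
    · exact absurd hw h.not2
  · intro w
    obtain ⟨v, hv, hvw⟩ := hout k w (by omega)
    refine ⟨(cyc v).out, ?_, (hmono _ _ (cyc_eq.1 ?_)).trans hvw⟩
    · rw [Finset.mem_image]
      exact ⟨⟨cyc v, hv⟩, mem_univ _, rfl⟩
    · exact Quotient.out_eq (cyc v)
  · refine le_trans Finset.card_image_le ?_
    rw [Finset.card_univ, Nat.card_eq_fintype_card]

end Pool.OddHC
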