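import Pool.Agent.Work.MP_8f87b2_mid.InAE
import Pool.Agent.Work.MP_8f87b2_h40.Words
import Pool.Agent.Work.MP_8f87b2_h24.Ring1
import Pool.Agent.Work.MP_8f87b2_h35.Tsq

/-!
MP_8f87b2_co: the inner words `T (w i)`, `i = 0, 1, 3, 6, 8, 9`, of the H1 windows (type A, `m ≥ 1`, `k ≥ 10`) against the
words of the one-soliton gadgets without beads (JM, J5, NM), in the form IsPu / IsUs / IsMx.
-/

set_option autoImplicit false

namespace Pool.OddHC

open BinaryTree Equiv

namespace H1

variable {k : ℕ}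

/-! ### The end of the letters before the first maximum -/

/-- the letters before the first maximum of a heavy word -/
def Ups (a : List Bool) : Prop :=
  (∃ n, 2 ≤ n ∧ a = List.replicate n true) ∨
    ∃ a' n, 2 ≤ n ∧ a = a' ++ ([false, false, false] ++ List.replicate n true)

theorem hv_end3 {A : BinaryTree Unit} : hv A → A ≠ .nil → ∃ v, wd A = v ++ [false, false, false] := by
  induction A with
  | nil => intro _ h; exact absurd rfl h
  | node _ A C ihA ihC =>
    intro h _
    change ∃ v, wd (A △ C) = _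
    rw [wd_node]
    by_cases hC : C = .nil
    · subst hC
      rcases h.1 with rfl | ⟨h1, h2⟩
      · exact ⟨[true, true, true], by simp [wd]⟩
      · obtain ⟨v, hv⟩ := ihA h2 h1
        exact ⟨true :: (v ++ [false]), by rw [hv]; simp [wd]⟩
    · obtain ⟨v, hv⟩ := ihC h.2 hC
      exact ⟨true :: (wd A ++ false :: v), by rw [hv]; simp⟩

theorem hv_FM {t : BinaryTree Unit} : hv t → t ≠ .nil → ∃ a b, FM t a b ∧ Ups a := by
  induction t with
  | nil => intro _ h; exact absurd rfl h
  | node _ A C ihA ihC =>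
    intro h _
    change ∃ a b, FM (A △ C) a b ∧ _
    by_cases hC : Tsq.ht A + 1 < Tsq.ht C
    · have hn : C ≠ .nil := by
        rintro rfl
        simp [Tsq.ht] at hC
      obtain ⟨a, b, h2, h3⟩ := ihC h.2 hn
      have h5 := h2.app_left (P := A △ .nil) (by rw [Tsq.ht_node]; simp [Tsq.ht]; omega)
      have hA : hv (A △ .nil) := ⟨h.1, trivial⟩
      obtain ⟨v, hv'⟩ := hv_end3 hA (by simp)
      refine ⟨_, b, h5, ?_⟩
      rcases h3 with ⟨n, h3, rfl⟩ | ⟨a', n, h3, rfl⟩
      · exact Or.inr ⟨v, n, h3, by rw [hv']; simp⟩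
      · exact Or.inr ⟨wd (A △ .nil) ++ a', n, h3, by simp⟩
    · push Not at hC
      rcases h.1 with rfl | ⟨h1, h2⟩
      · refine ⟨[true, true], [false, false, false] ++ wd C, ⟨?_, ?_, ?_⟩, Or.inl ⟨2, le_refl 2, rfl⟩⟩
        · rw [wd_node]; simp [wd]
        · intro m
          have hh : Tsq.ht ((((.nil △ .nil) △ .nil) : BinaryTree Unit) △ C) = 3 := by
            rw [Tsq.ht_node]
            have e : Tsq.ht ((.nil △ .nil) △ .nil : BinaryTree Unit) = 2 := rfl
            rw [e] at hC ⊢
            omega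
          rw [hh]
          rcases m with _ | _ | m <;> simp
        · have hh : Tsq.ht ((((.nil △ .nil) △ .nil) : BinaryTree Unit) △ C) = 3 := by
            rw [Tsq.ht_node]
            have e : Tsq.ht ((.nil △ .nil) △ .nil : BinaryTree Unit) = 2 := rfl
            rw [e] at hC ⊢
            omega
          rw [hh]; rfl
      · obtain ⟨a, b, h4, h5⟩ := ihA h2 h1
        refine ⟨true :: a, b ++ false :: wd C, h4.node hC, ?_⟩
        rcases h5 with ⟨n, h6, rfl⟩ | ⟨a', n, h6, rfl⟩
        · exact Or.inl ⟨n + 1, by omega, by rw [List.replicate_succ]⟩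
        · exact Or.inr ⟨true :: a', n, h6, by simp⟩

/-- first maximum with a property of the letters before it, stable under letters in front -/
theorem FM_W {p : List Bool → Prop} (hp : ∀ P a, p a → p (P ++ a)) {q : ℕ} {R B S : BinaryTree Unit}
    {a b : List Bool} (h : FM R a b) (ha : p a) (hq : q + 3 ≤ Tsq.ht R) : ∀ i ∈ [0, 1, 3, 6, 8, 9],
    ∃ a b, FM (W R (ch (q + 1)) B S i) a b ∧ p a := by
  intro i hi
  have hn : Tsq.ht (.nil : BinaryTree Unit) = 0 := rfl
  have hc : ∀ n, Tsq.ht (ch n) = n := fun n => by rw [ht_eq, ch_ht]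
  have hp1 : ∀ a, p a → p (true :: a) := fun a h => hp [true] a h
  simp only [List.mem_cons, List.not_mem_nil, or_false] at hi
  rcases hi with rfl | rfl | rfl | rfl | rfl | rfl
  · exact ⟨_, _, h.app_right (Z := ch (q + 3)) (by rw [hc]; exact hq), ha⟩
  · exact ⟨_, _, h.app_right (Z := .nil △ app (ch (q + 1)) (.nil △ .nil)) (by
      rw [Tsq.ht_node, Tsq.ht_app, Tsq.ht_node, hc, hn]; omega), ha⟩
  · exact ⟨_, _, (h.app_right (Z := .nil △ ch (q + 1)) (by
      rw [Tsq.ht_node, hc, hn]; omega)).node (Z := .nil) (by rw [hn]; omega), hp1 _ ha⟩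
  · exact ⟨_, _, h.node (Z := ch (q + 2)) (by rw [hc]; omega), hp1 _ ha⟩
  · have k := (h.node (Z := .nil) (by rw [hn]; omega)).app_left
      (P := app (ch (q + 1)) (.nil △ .nil)) (by
        rw [Tsq.ht_node, Tsq.ht_app, Tsq.ht_node, hc, hn]; omega)
    have e : W R (ch (q + 1)) B S 8 = app (app (ch (q + 1)) (.nil △ .nil)) (R △ .nil) := by
      rw [app_assoc]; rfl
    rw [e]
    exact ⟨_, _, k, hp _ _ (hp1 _ ha)⟩
  · exact ⟨_, _, (h.node (Z := .nil) (by rw [hn]; omega)).node (Z := ch (q + 1)) (by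
      rw [Tsq.ht_node, hc, hn]; omega), hp1 _ (hp1 _ ha)⟩

variable {q : ℕ} {B1 H s B : BinaryTree Unit}

/-- **the end of an inner word**: the light word `H` and the letters of `s` before its first maximum -/
theorem NodeG.tail (h : NodeG k q B1 H s B) (w0 : X k) {i : ℕ} (hi : i ∈ [0, 1, 3, 6, 8, 9]) :
    ∃ Z us, wd (TT (gX q B1 H s B w0 i)).1 = Z ++ false :: ((wd H).map not ++ us.map not) ∧ Ups us ∧
      (us = [true, true] → OddHC.ht s = 3) := by
  obtain ⟨us, vs, h1, h2⟩ := hv_FM h.hs h.s0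
  have a1 := bl_ht h.light
  have a2 := h.hs3
  have hH : Tsq.ht H < Tsq.ht s := by rw [ht_eq s]; omega
  have hHs : Tsq.ht (app H s) = Tsq.ht s := by rw [Tsq.ht_app]; omega
  have k1 := h1.app_left hH
  have k2 := k1.node (Z := B) (by rw [hHs, ht_eq, ht_eq]; exact h.top)
  have e2 : Tsq.ht (app H s △ B) = Tsq.ht s + 1 := by
    rw [Tsq.ht_node, hHs, ht_eq B, ht_eq s]
    have := h.top
    omega
  have k3 := k2.app_left (P := B1) (by rw [e2, ht_eq, ht_eq]; exact h.low)
  have hi' : i < 20 := by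
    simp only [List.mem_cons, List.not_mem_nil, or_false] at hi
    omega
  obtain ⟨a, b, k4, P, k5⟩ := FM_W (p := fun a => ∃ P, a = P ++ true :: (wd H ++ us))
    (fun P a ⟨P', h⟩ => ⟨P ++ P', by rw [h]; simp⟩) (q := q) (R := gR B1 H s B) (B := B)
    (S := (Tsq.sq (gR B1 H s B)).1) k3 ⟨wd B1, rfl⟩ (by rw [ht_eq, h.ht]; exact h.big) i hi
  rw [← h.word w0 hi'] at k4
  refine ⟨b.map not ++ false :: P.map not, us, ?_, h2, ?_⟩
  · rw [k4.wdT, k5]
    simp
  · rintro rfl
    have := h1.top
    rw [ht_eq] at this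
    simpa using this.symm

/-! ### Lists -/

theorem last_two {Z Y : List Bool} {a b c d : Bool} (h : Z ++ [a, b] = Y ++ [c, d]) :
    Z = Y ∧ a = c ∧ b = d := by
  have h1 := List.append_inj' h rfl
  simp at h1
  exact ⟨h1.1, h1.2.1, h1.2.2⟩

theorem rep_ne {Z Y : List Bool} {n : ℕ} (hn : 3 ≤ n) {c : Bool} (h : Z ++ List.replicate n false = Y ++ [true, c, false]) :
    False := by
  obtain ⟨m, rfl⟩ : ∃ m, n = m + 3 := ⟨n - 3, by omega⟩
  have e : List.replicate (m + 3) false = List.replicate m false ++ [false, false, false] := by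
    rw [List.replicate_add]; rfl
  rw [e, ← List.append_assoc] at h
  have := (List.append_inj' h rfl).2
  simp at this

/-- the tail of an inner word which ends with `0 1 0 0` or `0 1 1 0 0` -/
theorem tail_cases {Z us Y : List Bool} {c : Bool} (hu : Ups us) {H : BinaryTree Unit}
    (h : Z ++ false :: ((wd H).map not ++ us.map not) = Y ++ [false, c, true, false, false]) :
    us = [true, true] ∧ Z ++ false :: (wd H).map not = Y ++ [false, c, true] := by
  rcases hu with ⟨n, hn, rfl⟩ | ⟨a', n, hn, rfl⟩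
  · rcases Nat.lt_or_ge n 3 with h3 | h3
    · have : n = 2 := by omega
      subst this
      refine ⟨rfl, ?_⟩
      have e : (Z ++ false :: (wd H).map not) ++ [false, false] = (Y ++ [false, c, true]) ++ [false, false] := by
        simpa using h
      exact (last_two e).1
    · exfalso
      have e : (Z ++ false :: (wd H).map not) ++ List.replicate n false =
          (Y ++ [false, c]) ++ [true, false, false] := by
        simpa using h
      exact rep_ne h3 e
  · exfalso
    rcases Nat.lt_or_ge n 3 with h3 | h3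
    · have : n = 2 := by omega
      subst this
      have e : (Z ++ false :: ((wd H).map not ++ a'.map not)) ++ [true, true, true, false, false] =
          Y ++ [false, c, true, false, false] := by
        simpa using h
      have := (List.append_inj' e rfl).2
      simp at this
    · have e : (Z ++ false :: ((wd H).map not ++ (a'.map not ++ [true, true, true]))) ++ List.replicate n false =
          (Y ++ [false, c]) ++ [true, false, false] := by
        simpa using h
      exact rep_ne h3 e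

/-- last component of a light word -/
theorem bl_last {H : BinaryTree Unit} : bl H = true → H ≠ .nil →
    ∃ H', bl H' = true ∧ (H = app H' (.nil △ .nil) ∨ H = app H' ((.nil △ .nil) △ .nil)) := by
  induction H with
  | nil => intro _ h; exact absurd rfl h
  | node _ A X _ ih =>
    intro h _
    rw [bl, Bool.and_eq_true] at h
    by_cases hX : X = .nil
    · subst hX
      rcases light_cases h.1 with rfl | rfl
      · exact ⟨.nil, rfl, Or.inl rfl⟩
      · exact ⟨.nil, rfl, Or.inr rfl⟩
    · obtain ⟨H', h1, e | e⟩ := ih h.2 hX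
      · refine ⟨A △ H', ?_, Or.inl (by rw [e]; rfl)⟩
        rw [bl, Bool.and_eq_true]; exact ⟨h.1, h1⟩
      · refine ⟨A △ H', ?_, Or.inr (by rw [e]; rfl)⟩
        rw [bl, Bool.and_eq_true]; exact ⟨h.1, h1⟩

/-- (alpha) the end `0 0 1 0 0` -/
theorem alpha {Z us Y : List Bool} (hu : Ups us) {H : BinaryTree Unit} (hb : bl H = true) (h0 : H ≠ .nil)
    (h : Z ++ false :: ((wd H).map not ++ us.map not) = Y ++ [false, false, true, false, false]) :
    us = [true, true] ∧ H = .nil △ .nil := by
  obtain ⟨h1, h2⟩ := tail_cases hu h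
  refine ⟨h1, ?_⟩
  obtain ⟨H', hb', rfl | rfl⟩ := bl_last hb h0
  · have e : (Z ++ false :: (wd H').map not) ++ [false, true] = (Y ++ [false]) ++ [false, true] := by
      rw [wd_app] at h2
      simpa [wd] using h2
    have e1 := (last_two e).1
    by_cases hH : H' = .nil
    · rw [hH]; rfl
    · exfalso
      obtain ⟨H2, _, rfl | rfl⟩ := bl_last hb' hH
      · have e2 : (Z ++ false :: (wd H2).map not ++ [false]) ++ [true] = Y ++ [false] := by
          rw [wd_app] at e1
          simpa [wd] using e1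
        have := (List.append_inj' e2 rfl).2
        simp at this
      · have e2 : (Z ++ false :: (wd H2).map not ++ [false, false, true]) ++ [true] = Y ++ [false] := by
          rw [wd_app] at e1
          simpa [wd] using e1
        have := (List.append_inj' e2 rfl).2
        simp at this
  · exfalso
    have e : (Z ++ false :: (wd H').map not ++ [false, false]) ++ [true, true] = (Y ++ [false]) ++ [false, true] := by
      rw [wd_app] at h2
      simpa [wd] using h2
    have := (last_two e).2.1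
    simp at this

/-- `(1100)^t` -/
def bs : ℕ → List Bool
  | 0 => []
  | t + 1 => bs t ++ [true, true, false, false]

theorem beta0 {Z Y : List Bool} : ∀ (t : ℕ) {H : BinaryTree Unit}, bl H = true →
    Z ++ false :: ((wd H).map not ++ [false, false]) ≠ (Y ++ [true, false, true, false]) ++ bs t := by
  intro t
  induction t with
  | zero =>
    intro H _ h
    have e : (Z ++ false :: (wd H).map not) ++ [false, false] = (Y ++ [true, false]) ++ [true, false] := by
      simpa [bs] using h
    have := (last_two e).2.1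
    simp at this
  | succ t ih =>
    intro H hb h
    have e : (Z ++ false :: (wd H).map not) ++ [false, false] =
        ((Y ++ [true, false, true, false]) ++ bs t ++ [true, true]) ++ [false, false] := by
      simpa [bs] using h
    have e1 := (last_two e).1
    by_cases hH : H = .nil
    · subst hH
      have e2 : Z ++ [false] = ((Y ++ [true, false, true, false]) ++ bs t ++ [true]) ++ [true] := by
        simpa [wd] using e1
      have := (List.append_inj' e2 rfl).2
      simp at this
    · obtain ⟨H', hb', rfl | rfl⟩ := bl_last hb hH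
      · have e2 : (Z ++ false :: (wd H').map not) ++ [false, true] =
            ((Y ++ [true, false, true, false]) ++ bs t) ++ [true, true] := by
          rw [wd_app] at e1
          simpa [wd] using e1
        have := (last_two e2).2.1
        simp at this
      · have e2 : (Z ++ false :: ((wd H').map not ++ [false, false])) ++ [true, true] =
            ((Y ++ [true, false, true, false]) ++ bs t) ++ [true, true] := by
          rw [wd_app] at e1
          simpa [wd] using e1
        exact ih hb' (last_two e2).1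

/-- (beta) the end `()() (())^t`, `t ≥ 1` -/
theorem beta {Z us Y : List Bool} (hu : Ups us) {H : BinaryTree Unit} (hb : bl H = true) (t : ℕ)
    (h : Z ++ false :: ((wd H).map not ++ us.map not) = (Y ++ [true, false, true, false]) ++ bs (t + 1)) :
    False := by
  have key : ∃ Y', (Y ++ [true, false, true, false]) ++ bs (t + 1) = Y' ++ [false, true, true, false, false] := by
    cases t with
    | zero => exact ⟨Y ++ [true, false, true], by simp [bs]⟩
    | succ t => exact ⟨(Y ++ [true, false, true, false]) ++ bs t ++ [true, true, false], by simp [bs]⟩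
  obtain ⟨Y', hY⟩ := key
  have h1 := h
  rw [hY] at h1
  obtain ⟨h2, _⟩ := tail_cases hu h1
  subst h2
  exact beta0 (t + 1) hb (by simpa using h)

/-! ### Contents -/

theorem hv_parts {t : BinaryTree Unit} : hv t → ∀ x ∈ cont t, 3 ≤ x := by
  induction t with
  | nil => intro _ x hx; rw [cont_nil] at hx; simp at hx
  | node _ A C ihA ihC =>
    intro h x hx
    change x ∈ cont (A △ C) at hx
    rw [cont_node, Multiset.mem_add] at hx
    rcases hx with hx | hx
    · rcases h.1 with rfl | ⟨h1, h2⟩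
      · have e : cont ((.nil △ .nil) △ .nil : BinaryTree Unit) = {2} := ch_cont 1
        rw [e] at hx
        have e2 : raise ({2} : Multiset ℕ) = {3} := by
          unfold raise
          simp
        rw [e2, Multiset.mem_singleton] at hx
        omega
      · unfold raise at hx
        rw [Multiset.mem_cons] at hx
        rcases hx with hx | hx
        · have h3 := hv_ht h2 h1
          rw [ht_eq, OddHC.ht_eq] at h3
          omega
        · exact ihA h2 x (Multiset.mem_of_mem_erase hx)
    · exact ihC h.2 x hx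

theorem hv_cnt {t : BinaryTree Unit} (h : hv t) : (cont t).count 1 = 0 ∧ (cont t).count 2 = 0 := by
  constructor
  · rw [Multiset.count_eq_zero]
    intro h1
    have := hv_parts h 1 h1
    omega
  · rw [Multiset.count_eq_zero]
    intro h1
    have := hv_parts h 2 h1
    omega

/-- number of parts and small parts under `raise` -/
theorem raise_big {M : Multiset ℕ} (h : 3 ≤ M.sup) : Multiset.card (raise M) = Multiset.card M ∧
    (raise M).count 1 = M.count 1 ∧ (raise M).count 2 = M.count 2 := by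
  refine ⟨raise_card ?_, count_raise 1 (by omega) (by omega), count_raise 2 (by omega) (by omega)⟩
  rintro rfl
  simp at h

variable {q : ℕ} {B1 H s B : BinaryTree Unit}

/-- parts of `R` -/
theorem NodeG.cR (h : NodeG k q B1 H s B) :
    Multiset.card (cont (gR B1 H s B)) =
      Multiset.card (cont B1) + Multiset.card (cont H) + Multiset.card (cont s) + Multiset.card (cont B) ∧
    (cont (gR B1 H s B)).count 1 = (cont H).count 1 ∧ (cont (gR B1 H s B)).count 2 = (cont H).count 2 := by
  have h1 := hv_cnt h.h1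
  have h2 := hv_cnt h.hs
  have h3 := hv_cnt h.hB
  have hs : 3 ≤ (cont H + cont s).sup := by
    have a2 := h.hs3
    rw [OddHC.ht_eq] at a2
    rw [Multiset.sup_add]
    exact a2.trans le_sup_right
  obtain ⟨r1, r2, r3⟩ := raise_big hs
  have e : cont (gR B1 H s B) = cont B1 + (raise (cont H + cont s) + cont B) := by
    unfold gR
    rw [cont_app, cont_node, cont_app]
  rw [e]
  simp only [Multiset.card_add, Multiset.count_add, r1, r2, r3]
  omega

/-- at least one part of `R` is at least 3 -/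
theorem NodeG.big1 (h : NodeG k q B1 H s B) (hH : cont H = {1}) :
    Multiset.card (cont (gR B1 H s B)) = 1 + Multiset.card (cont B1) + Multiset.card (cont s) +
      Multiset.card (cont B) ∧ (cont (gR B1 H s B)).count 1 = 1 ∧
      (cont (gR B1 H s B)).count 2 = 0 ∧ 1 ≤ Multiset.card (cont s) := by
  obtain ⟨h1, h2, h3⟩ := h.cR
  rw [hH] at h1 h2 h3
  refine ⟨by rw [h1, Multiset.card_singleton]; omega, by rw [h2]; simp, by rw [h3]; simp, ?_⟩
  rcases Nat.eq_zero_or_pos (Multiset.card (cont s)) with h0 | h0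
  · exfalso
    rw [Multiset.card_eq_zero, cont_eq_zero] at h0
    exact h.s0 h0
  · exact h0

/-- the contents of the linked words: number of parts, of 1, of 2 -/
theorem W_cnt {R B S : BinaryTree Unit} {q : ℕ} (hR : 3 ≤ OddHC.ht R) {i : ℕ}
    (hi : i ∈ [0, 1, 3, 6, 8, 9]) {y : Multiset ℕ} (hy : y = cont (W R (ch (q + 1)) B S i))
    (hc1 : (cont R).count 1 = 1) (hc2 : (cont R).count 2 = 0)
    (h1 : y.count 1 = 1) (h2 : Multiset.card y = y.count 1 + y.count 2 + 1)
    (h3 : 2 ≤ Multiset.card (cont R)) : q ≤ 1 ∧ Multiset.card (cont R) = 2 := by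
  subst hy
  have e : 3 ≤ (cont R).sup := by rw [← OddHC.ht_eq]; exact hR
  obtain ⟨r1, r2, r3⟩ := raise_big e
  obtain ⟨r4, r5, r6⟩ := raise_big (M := raise (cont R)) (by rw [sup_raise]; omega)
  have c0 : cont (BinaryTree.nil : BinaryTree Unit) = 0 := rfl
  have cq : ∀ n, cont (ch (n + 1)) = {n + 1} := fun n => ch_cont n
  have s1 : ∀ n m : ℕ, ({n} : Multiset ℕ).count m = if m = n then 1 else 0 := fun n m => by
    rw [Multiset.count_singleton]
  simp only [List.mem_cons, List.not_mem_nil, or_false] at hi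
  rcases hi with rfl | rfl | rfl | rfl | rfl | rfl
  · have e1 : W R (ch (q + 1)) B S 0 = app R (ch (q + 3)) := rfl
    rw [e1, cont_app, cq (q + 2)] at h1 h2
    simp only [Multiset.count_add, Multiset.card_add, Multiset.card_singleton, s1] at h1 h2
    rw [if_neg (by omega)] at h1 h2
    rw [if_neg (by omega)] at h2
    omega
  · exfalso
    simp only [W, cont_app, cont_node, c0, raise_zero, Multiset.count_add, s1, if_true] at h1
    omega
  · exfalso
    have e1 : W R (ch (q + 1)) B S 3 = app R (.nil △ ch (q + 1)) △ .nil := rfl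
    have e2 : 3 ≤ (cont (app R (.nil △ ch (q + 1)))).sup := by
      rw [← OddHC.ht_eq, ht_app]; omega
    obtain ⟨_, r8, _⟩ := raise_big e2
    rw [e1, cont_node, c0, add_zero, r8] at h1
    simp only [cont_app, cont_node, c0, raise_zero, Multiset.count_add, s1, if_true] at h1
    omega
  · have e1 : W R (ch (q + 1)) B S 6 = R △ ch (q + 2) := rfl
    rw [e1, cont_node, cq (q + 1)] at h1 h2
    simp only [Multiset.count_add, Multiset.card_add, Multiset.card_singleton, s1, r1, r2, r3] at h1 h2
    rw [if_neg (by omega)] at h1 h2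
    split_ifs at h2 with h5
    · omega
    · omega
  · exfalso
    simp only [W, cont_app, cont_node, c0, raise_zero, Multiset.count_add, s1, if_true, add_zero, r2] at h1
    omega
  · have e1 : W R (ch (q + 1)) B S 9 = (R △ .nil) △ ch (q + 1) := rfl
    rw [e1, cont_node, cont_node, c0, add_zero, cq q] at h1 h2
    simp only [Multiset.count_add, Multiset.card_add, Multiset.card_singleton, s1, r1, r2, r3, r4, r5, r6] at h1 h2
    rw [hc1, hc2] at h2
    rw [hc1] at h1
    split_ifs at h1 with h5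
    · omega
    · rw [if_neg h5] at h2
      split_ifs at h2 with h6 <;> omega

/-- (alpha): a window with an inner word `(R'())` of this kind has `k ≤ 9` -/
theorem NodeG.no_alpha (h : NodeG k q B1 H s B) (hk : 10 ≤ k) (w0 : X k) {i : ℕ}
    (hi : i ∈ [0, 1, 3, 6, 8, 9]) {Y : List Bool}
    (hY : wd (TT (gX q B1 H s B w0 i)).1 = Y ++ [false, false, true, false, false])
    (h1 : (cont (TT (gX q B1 H s B w0 i)).1).count 1 = 1)
    (h2 : Multiset.card (cont (TT (gX q B1 H s B w0 i)).1) =
      (cont (TT (gX q B1 H s B w0 i)).1).count 1 + (cont (TT (gX q B1 H s B w0 i)).1).count 2 + 1) : False := by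
  obtain ⟨Z, us, e1, e2, e3⟩ := h.tail w0 hi
  rw [hY] at e1
  obtain ⟨rfl, rfl⟩ := alpha e2 h.light h.H0 e1.symm
  have hs3 := e3 rfl
  have hH : cont (.nil △ .nil : BinaryTree Unit) = {1} := by rw [cont_node, cont_nil, raise_zero]; rfl
  obtain ⟨c1, c2, c3, c4⟩ := h.big1 hH
  have hi' : i < 20 := by
    simp only [List.mem_cons, List.not_mem_nil, or_false] at hi
    omega
  rw [cont_TT] at h1 h2
  have e4 := W_cnt (B := B) (S := (Tsq.sq (gR B1 (.nil △ .nil) s B)).1) (q := q) (by rw [h.ht]; omega) hi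
    (by rw [← h.word w0 hi']) c2 c3 h1 h2 (by omega)
  obtain ⟨e5, e6⟩ := e4
  have k1 : Multiset.card (cont B1) = 0 := by omega
  have k2 : Multiset.card (cont B) = 0 := by omega
  have k3 : Multiset.card (cont s) = 1 := by omega
  rw [Multiset.card_eq_zero, cont_eq_zero] at k1 k2
  obtain ⟨x, hx⟩ := Multiset.card_eq_one.1 k3
  have k4 := cont_sum s
  have k5 := OddHC.ht_eq s
  rw [hx] at k4 k5
  simp at k4 k5
  have k6 := h.size
  rw [k1, k2] at k6
  have k7 := cont_sum (gR .nil (.nil △ .nil) s .nil)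
  have k8 : cont (gR .nil (.nil △ .nil) s .nil) = raise ({1} + {x}) := by
    unfold gR
    rw [cont_app, cont_node, cont_app, hH, hx, cont_nil]
    simp
  rw [k8, raise_sum] at k7
  simp at k7
  omega

end H1

/-! ### The words of the one-soliton gadgets -/

namespace H1

open J

variable {k q n : ℕ} {B1 H s B : BinaryTree Unit}

theorem not_110 {t A C : BinaryTree Unit} (h : Sta 3 (wd t)) : t ≠ (.nil △ A) △ C := by
  rintro rfl
  obtain ⟨v, hv⟩ := h.ttt (le_refl 3)
  rw [wd_node, wd_node] at hv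
  simp [wd] at hv

theorem raise1 {M : Multiset ℕ} (h : 2 ≤ M.sup) : (raise M).count 1 = M.count 1 :=
  count_raise 1 (by omega) (by omega)

theorem RF_one (hn : 1 ≤ n) (Φ : ZMod (2 * n + 1) → ℕ) : (cont (Ring1.RF n Φ)).count 1 = 0 := by
  rw [Ring1.cont_RF hn, Multiset.count_add, Multiset.count_singleton, Multiset.count_replicate]
  rw [if_neg (by omega), if_neg (by omega)]

theorem RF_ht (hn : 1 ≤ n) (Φ : ZMod (2 * n + 1) → ℕ) : 3 ≤ (cont (Ring1.RF n Φ)).sup := by
  rw [Ring1.cont_RF hn, Multiset.sup_add]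
  refine le_trans ?_ le_sup_left
  simp
  omega

/-- ends with `00` -/
def E00 (t : BinaryTree Unit) : Prop := ∃ v, wd t = v ++ [false, false]

theorem E00_node {A C : BinaryTree Unit} (h : E00 C) : E00 (A △ C) := by
  obtain ⟨v, hv⟩ := h
  exact ⟨true :: (wd A ++ false :: v), by rw [wd_node, hv]; simp⟩

theorem wd_end1 : ∀ {t : BinaryTree Unit}, t ≠ .nil → ∃ v, wd t = v ++ [false] := by
  intro t
  induction t with
  | nil => intro h; exact absurd rfl h
  | node _ A C _ ih =>
    intro _
    change ∃ v, wd (A △ C) = _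
    by_cases hC : C = .nil
    · subst hC
      exact ⟨true :: wd A, by simp [wd]⟩
    · obtain ⟨v, hv⟩ := ih hC
      exact ⟨true :: (wd A ++ false :: v), by rw [wd_node, hv]; simp⟩

theorem E00_one {D : BinaryTree Unit} (h : D ≠ .nil) : E00 (D △ .nil) := by
  obtain ⟨v, hv⟩ := wd_end1 h
  exact ⟨true :: v, by rw [wd_node, hv]; simp [wd]⟩

theorem E00_b2 : ∀ t : ℕ, E00 (b2 (t + 1)) := by
  intro t
  induction t with
  | zero => exact ⟨[true, true], by simp [b2, lv2, wd]⟩
  | succ t ih => exact E00_node ih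

theorem E00_lv2 {X : BinaryTree Unit} (h : E00 X) : ∀ p : ℕ, E00 (lv2 p X) := by
  intro p
  induction p with
  | zero => exact h
  | succ p ih => exact E00_node ih

theorem GD.ne0 {D : BinaryTree Unit} (hD : GD D) : D ≠ .nil := by
  rintro rfl
  have := hD.ht
  have h0 : OddHC.ht (BinaryTree.nil : BinaryTree Unit) = 0 := rfl
  omega

theorem RR_end {p t : ℕ} {D : BinaryTree Unit} (hD : GD D) : E00 (RR p D t) := by
  apply E00_lv2
  cases t with
  | zero => exact E00_one (GD.ne0 hD)
  | succ t => exact E00_node (E00_b2 t)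

theorem wd_mir_b2 (t : ℕ) : wd (Tsq.mir (b2 t)) = bs t := by
  induction t with
  | zero => rfl
  | succ t ih =>
    have e : b2 (t + 1) = (.nil △ .nil) △ b2 t := rfl
    have h0 : Tsq.mir BinaryTree.nil = BinaryTree.nil := rfl
    rw [e, Tsq.mir_node, wd_app, ih, Tsq.mir_node, h0]
    simp [bs, wd, app]

theorem cont_mir' (t : BinaryTree Unit) : cont (Tsq.mir t) = cont t := by
  induction t with
  | nil => rfl
  | node _ A B ihA ihB =>
    change cont (Tsq.mir (A △ B)) = cont (A △ B)
    rw [Tsq.mir_node, cont_app, cont_node, cont_nil, ihA, ihB, cont_node, add_zero, add_comm]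

/-- contents of the pieces of the mixed words -/
theorem piece_cont (hn : 1 ≤ n) {Ψ : ZMod (2 * n + 1) → ℕ} {t u : ℕ} {D : BinaryTree Unit}
    (hM : Tsq.mir (Ring1.RF n Ψ) = RR t D u) :
    (cont (b2 t)).count 1 = 0 ∧ (cont (RR 0 D u)).count 1 = 0 := by
  have e1 : cont (RR t D u) = cont (b2 t) + cont (RR 0 D u) := by
    rw [← cont_app, app_b2]
    rfl
  have e2 := RF_one hn Ψ
  rw [← cont_mir', hM, e1, Multiset.count_add] at e2
  omega

theorem NodeG.one_le (hG : NodeG k q B1 H s B) (hm : 1 ≤ (cont (gR B1 H s B)).count 1) (w0 : X k) {i : ℕ}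
    (hi : i ∈ [0, 1, 3, 6, 8, 9]) : 1 ≤ (cont (TT (gX q B1 H s B w0 i)).1).count 1 := by
  have hi' : i < 20 := by
    simp only [List.mem_cons, List.not_mem_nil, or_false] at hi
    omega
  rw [cont_TT, hG.word w0 hi']
  refine hm.trans (count_W ?_ i hi)
  have := hG.ht
  have := hG.hs3
  omega

/-- no inner word is a pure word -/
theorem NodeG.no_pw (hG : NodeG k q B1 H s B) (hk : 10 ≤ k) (hm : 1 ≤ (cont (gR B1 H s B)).count 1)
    (w0 : X k) {i : ℕ} (hi : i ∈ [0, 1, 3, 6, 8, 9]) (hn : 1 ≤ n) {Φ : ZMod (2 * n + 1) → ℕ} {j : ℕ}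
    (hj : j < 10) (j0 : j ≠ 0) (j4 : j ≠ 4) : (TT (gX q B1 H s B w0 i)).1 ≠ J.pw (Ring1.RF n Φ) j := by
  obtain ⟨u, v, hf⟩ := hG.fmrW hG.fmr w0 i hi
  obtain ⟨h2, l, h3⟩ := hf.inner
  have h1 := hG.one_le hm w0 hi
  intro e
  have hR1 := RF_one hn Φ
  have hR3 := RF_ht hn Φ
  interval_cases j
  · exact j0 rfl
  · refine inner_last (le_refl 3) h3 (Y := app (Ring1.RF n Φ) (.nil △ .nil)) ?_
    rw [e, app_assoc]; rfl
  · exact inner_first (le_refl 3) h2 (Y := app (Ring1.RF n Φ) (.nil △ .nil)) e
  · have e' : (TT (gX q B1 H s B w0 i)).1 = app (Ring1.RF n Φ) (.nil △ .nil) △ .nil := e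
    have hE : E00 (Ring1.RF n Φ) := by
      obtain ⟨D0, d1, d2⟩ := Ring1.shape hn Φ
      rw [d2]
      apply E00_lv2
      have d3 : inf D0 ≠ .nil := inf_ne_nil d1
      cases Φ (-1) with
      | zero => exact E00_one d3
      | succ t => exact E00_node (E00_b2 t)
    obtain ⟨r, hr⟩ := hE
    have hcard : Multiset.card (cont (Ring1.RF n Φ)) = (cont (Ring1.RF n Φ)).count 2 + 1 := by
      rw [Ring1.cont_RF hn]
      simp only [Multiset.card_add, Multiset.card_singleton, Multiset.card_replicate, Multiset.count_add,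
        Multiset.count_singleton, Multiset.count_replicate_self]
      rw [if_neg (by omega)]
      omega
    have e3 : 3 ≤ (cont (app (Ring1.RF n Φ) (.nil △ .nil))).sup := by
      rw [cont_app, Multiset.sup_add]; exact hR3.trans le_sup_left
    obtain ⟨r1, r2, r3⟩ := raise_big e3
    have hc : cont (.nil △ .nil : BinaryTree Unit) = {1} := by rw [cont_node, cont_nil, raise_zero]; rfl
    refine hG.no_alpha hk w0 hi (Y := true :: r) ?_ ?_ ?_
    · rw [e', wd_node, wd_app, hr]
      simp [wd]
    · rw [e', cont_node, cont_nil, add_zero, r2, cont_app, hc, Multiset.count_add, hR1]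
      simp
    · rw [e', cont_node, cont_nil, add_zero, r1, r2, r3, cont_app, hc]
      simp only [Multiset.card_add, Multiset.count_add, Multiset.card_singleton, Multiset.count_singleton, hR1]
      simp
      omega
  · exact j4 rfl
  · exact inner_first (le_refl 3) h2 (Y := .nil △ Ring1.RF n Φ) e
  · exact inner_last (le_refl 3) h3 (Y := Ring1.RF n Φ △ .nil) e
  · exact not_110 h2 (A := Ring1.RF n Φ) (C := .nil) e
  · exact inner_first (le_refl 3) h2 (Y := Ring1.RF n Φ △ .nil) e
  · have e' : (TT (gX q B1 H s B w0 i)).1 = (Ring1.RF n Φ △ .nil) △ .nil := e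
    rw [e', cont_node, cont_nil, add_zero, cont_node, cont_nil, add_zero,
      raise1 (by rw [sup_raise]; omega), raise1 (by omega), hR1] at h1
    omega

/-- no inner word is a word of the class -/
theorem NodeG.no_RF (hG : NodeG k q B1 H s B) (hm : 1 ≤ (cont (gR B1 H s B)).count 1) (w0 : X k) {i : ℕ}
    (hi : i ∈ [0, 1, 3, 6, 8, 9]) (hn : 1 ≤ n) {Φ : ZMod (2 * n + 1) → ℕ} :
    (TT (gX q B1 H s B w0 i)).1 ≠ Ring1.RF n Φ := by
  intro e
  have h1 := hG.one_le hm w0 hi
  rw [e, RF_one hn] at h1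
  omega

theorem mir_b2 (t : ℕ) : ∃ Y, Tsq.mir (b2 (t + 1)) = (.nil △ .nil) △ Y := by
  have h0 : Tsq.mir BinaryTree.nil = BinaryTree.nil := rfl
  induction t with
  | zero =>
    refine ⟨.nil, ?_⟩
    have e : b2 (0 + 1) = (.nil △ .nil) △ .nil := rfl
    rw [e, Tsq.mir_node, Tsq.mir_node, h0]
    rfl
  | succ t ih =>
    obtain ⟨Y, hY⟩ := ih
    have e : b2 (t + 1 + 1) = (.nil △ .nil) △ b2 (t + 1) := rfl
    refine ⟨app Y (Tsq.mir (.nil △ .nil) △ .nil), ?_⟩
    rw [e, Tsq.mir_node, hY]
    rfl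

/-- no inner word is a mirrored mixed word -/
theorem NodeG.no_mw (hG : NodeG k q B1 H s B) (hm : 1 ≤ (cont (gR B1 H s B)).count 1) (w0 : X k) {i : ℕ}
    (hi : i ∈ [0, 1, 3, 6, 8, 9]) (hn : 1 ≤ n) {Ψ : ZMod (2 * n + 1) → ℕ} {t u j : ℕ} {D : BinaryTree Unit}
    (ht : 1 ≤ t) (hD : 2 ≤ OddHC.ht D) (hM : Tsq.mir (Ring1.RF n Ψ) = RR t D u) (hj : 11 ≤ j) (hj' : j < 20) :
    (TT (gX q B1 H s B w0 i)).1 ≠ Tsq.mir (mw t D u j) := by
  obtain ⟨a, b, hf⟩ := hG.fmrW hG.fmr w0 i hi
  obtain ⟨h2, l, h3⟩ := hf.inner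
  have h1 := hG.one_le hm w0 hi
  intro e
  obtain ⟨p1, p2⟩ := piece_cont hn hM
  have hS : 3 ≤ OddHC.ht (RR 0 D u) := by
    change 3 ≤ OddHC.ht (D △ b2 u)
    rw [ht_node]
    omega
  obtain ⟨t', rfl⟩ : ∃ t', t = t' + 1 := ⟨t - 1, by omega⟩
  have hB : 2 ≤ OddHC.ht (b2 (t' + 1)) := by
    change 2 ≤ OddHC.ht ((.nil △ .nil) △ b2 t')
    rw [ht_node, ht_node]
    omega
  have h0 : Tsq.mir BinaryTree.nil = BinaryTree.nil := rfl
  obtain ⟨Y, hY⟩ := mir_b2 t'
  have w11 := wd_mir_b2 (t' + 1)
  have c0 : cont (BinaryTree.nil : BinaryTree Unit) = 0 := rfl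
  have e2 : (TT (gX q B1 H s B w0 i)).1 = Tsq.mir (W .nil .nil (b2 (t' + 1)) (RR 0 D u) j) := e
  generalize hBt : b2 (t' + 1) = Bt at *
  generalize hSt : RR 0 D u = St at *
  interval_cases j
  · -- S ()() B
    have e3 : (TT (gX q B1 H s B w0 i)).1 =
        app (app (app (Tsq.mir St) (.nil △ .nil)) (.nil △ .nil)) (Tsq.mir Bt) := by
      rw [e2]
      simp only [W, Tsq.mir_node, Tsq.mir_app, h0, app]
    obtain ⟨Z, us, e4, e5, _⟩ := hG.tail w0 hi
    refine beta (Z := Z) e5 hG.light t' (Y := wd (Tsq.mir St)) ?_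
    rw [← e4, e3, wd_app, wd_app, wd_app, w11]
    simp [wd]
  · -- () B (S)
    refine inner_first (le_refl 3) h2 (Y := app (Tsq.mir Bt) (Tsq.mir St △ .nil)) ?_
    rw [e2]
    simp only [W, Tsq.mir_node, Tsq.mir_app, h0, app]
  · -- (()B) S
    refine not_110 h2 (A := Tsq.mir Bt) (C := Tsq.mir St) ?_
    rw [e2]
    simp only [W, Tsq.mir_node, Tsq.mir_app, h0, app]
  · -- B (S())
    refine not_110 h2 (A := .nil) (C := app Y (app (Tsq.mir St) (.nil △ .nil) △ .nil)) ?_
    rw [e2]
    simp only [W, Tsq.mir_node, Tsq.mir_app, h0, app, hY]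
  · -- B (S) ()
    refine inner_last (le_refl 3) h3 (Y := app (Tsq.mir Bt) (Tsq.mir St △ .nil)) ?_
    rw [e2]
    simp only [W, Tsq.mir_node, Tsq.mir_app, h0, app]
  · -- () (B) S
    refine inner_first (le_refl 3) h2 (Y := Tsq.mir Bt △ Tsq.mir St) ?_
    rw [e2]
    simp only [W, Tsq.mir_node, Tsq.mir_app, h0, app]
  · -- (B (S))
    have e3 : (cont (TT (gX q B1 H s B w0 i)).1).count 1 = 0 := by
      rw [e2, cont_mir']
      change (cont ((St △ Bt) △ .nil)).count 1 = 0
      have k1 : 2 ≤ (cont St).sup := by rw [← OddHC.ht_eq]; omega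
      have k2 : 2 ≤ (raise (cont St) + cont Bt).sup := by
        rw [Multiset.sup_add]
        refine le_trans ?_ le_sup_left
        rw [sup_raise]; omega
      rw [cont_node, cont_node, c0, add_zero, raise1 k2, Multiset.count_add, raise1 k1, p1, p2]
    omega
  · -- (B) S ()
    refine inner_last (le_refl 3) h3 (Y := Tsq.mir Bt △ Tsq.mir St) ?_
    rw [e2]
    simp only [W, Tsq.mir_node, Tsq.mir_app, h0, app]
  · -- ((B) S)
    have e3 : (cont (TT (gX q B1 H s B w0 i)).1).count 1 = 0 := by
      rw [e2, cont_mir']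
      change (cont (app St (Bt △ .nil) △ .nil)).count 1 = 0
      have k1 : 2 ≤ (cont Bt).sup := by rw [← OddHC.ht_eq]; omega
      have k2 : 2 ≤ (cont St + raise (cont Bt)).sup := by
        rw [Multiset.sup_add]
        refine le_trans ?_ le_sup_right
        rw [sup_raise]; omega
      rw [cont_node, cont_app, cont_node, c0, add_zero, add_zero, raise1 k2, Multiset.count_add,
        raise1 k1, p1, p2]
    omega

theorem arcs_cases' {w0 : X k} {a : X k × X k} (ha : a ∈ (gad20 (gX q B1 H s B w0)).arcs) :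
    ∃ i ∈ [0, 1, 3, 6, 8, 9], innA a = {TT (gX q B1 H s B w0 i)} := by
  have hp : a = (gX q B1 H s B w0 0, gX q B1 H s B w0 10) ∨
      a = (gX q B1 H s B w0 1, gX q B1 H s B w0 11) ∨
      a = (gX q B1 H s B w0 3, gX q B1 H s B w0 12) ∨
      a = (gX q B1 H s B w0 6, gX q B1 H s B w0 15) ∨
      a = (gX q B1 H s B w0 8, gX q B1 H s B w0 14) ∨
      a = (gX q B1 H s B w0 9, gX q B1 H s B w0 17) := ha
  rcases hp with rfl | rfl | rfl | rfl | rfl | rfl
  · exact ⟨0, by simp, rfl⟩
  · exact ⟨1, by simp, rfl⟩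
  · exact ⟨3, by simp, rfl⟩
  · exact ⟨6, by simp, rfl⟩
  · exact ⟨8, by simp, rfl⟩
  · exact ⟨9, by simp, rfl⟩

end H1

open H1

variable {k n : ℕ} {F : Set (Cyc k)} {g : DG k}

/-- **inner words of type A (at least one bead, `k ≥ 10`) are no words of the one-soliton gadgets** -/
theorem TyA.inner_raw (h : TyA F g) (hk : 10 ≤ k) (hm : ∀ p ∈ F, 1 ≤ (contc p).count 1) (hn : 1 ≤ n)
    {a : X k × X k} (ha : a ∈ g.arcs) {w : X k} (hw : w ∈ innA a) :
    (∀ (Φ : ZMod (2 * n + 1) → ℕ) (j : ℕ), j < 10 → j ≠ 0 → j ≠ 4 → w.1 ≠ J.pw (Ring1.RF n Φ) j) ∧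
    (∀ Φ : ZMod (2 * n + 1) → ℕ, w.1 ≠ Ring1.RF n Φ) ∧
    ∀ (Ψ : ZMod (2 * n + 1) → ℕ) (t u j : ℕ) (D : BinaryTree Unit), 1 ≤ t → 2 ≤ OddHC.ht D →
      Tsq.mir (Ring1.RF n Ψ) = J.RR t D u → 11 ≤ j → j < 20 → w.1 ≠ Tsq.mir (J.mw t D u j) := by
  obtain ⟨q, B1, H, s, B, w0, hG, rfl, rfl⟩ := h
  obtain ⟨i, hi, e⟩ := arcs_cases' ha
  rw [e] at hw
  have e1 : w = TT (gX q B1 H s B w0 i) := hw
  subst e1
  have hm1 : 1 ≤ (cont (gR B1 H s B)).count 1 := by
    have h1 := hm (cyc (gX q B1 H s B w0 0)) rfl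
    rw [contc_cyc, hG.word w0 (by norm_num), cont_W0, Multiset.count_add, Multiset.count_singleton,
      if_neg (by omega)] at h1
    simpa using h1
  exact ⟨fun Φ j => hG.no_pw hk hm1 w0 hi hn, fun Φ => hG.no_RF hm1 w0 hi hn,
    fun Ψ t u j D ht hD hM hj hj' => hG.no_mw hm1 w0 hi hn ht hD hM hj hj'⟩

end Pool.OddHC
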