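import Pool.Agent.Work.MP_8f87b2_h41.InAJ0
import Pool.Agent.Work.MP_8f87b2_h71.NatHost

/-!
MP_8f87b2_co: the inner words `T (w i)`, `i = 0, 1, 3, 6, 8, 9`, of the windows of type A are not hosts of natural phases
(both orientations), when all parts but the beads are at least `c` and the top is larger: the analogue for `NodeG` of the
theorem of helper71 for `NodeM`.
-/

set_option autoImplicit false

namespace Pool.OddHC

open BinaryTree Equiv

namespace H1

variable {k : ℕ}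

/-- the first maximum of a linked word -/
theorem FM_W2 {c q : ℕ} {R B S : BinaryTree Unit} {a b : List Bool} (h : FM R a b) (hc : c ≤ q + 3)
    (hq : q + 3 ≤ Tsq.ht R) : ∀ i ∈ [0, 1, 3, 6, 8, 9],
    ∃ P suf, FM (W R (ch (q + 1)) B S i) (P ++ a) (b ++ suf) ∧
      ((∃ s, suf = false :: s) ∨ (∃ s, suf = true :: false :: s) ∨
        ∃ s, suf = List.replicate c true ++ s) := by
  intro i hi
  have hn : Tsq.ht (.nil : BinaryTree Unit) = 0 := rfl
  have hc' : ∀ n, Tsq.ht (ch n) = n := fun n => by rw [ht_eq, ch_ht]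
  simp only [List.mem_cons, List.not_mem_nil, or_false] at hi
  rcases hi with rfl | rfl | rfl | rfl | rfl | rfl
  · refine ⟨[], _, h.app_right (Z := ch (q + 3)) (by rw [hc']; exact hq), Or.inr (Or.inr ?_)⟩
    refine ⟨List.replicate (q + 3 - c) true ++ List.replicate (q + 3) false, ?_⟩
    rw [wd_ch, ← List.append_assoc, ← List.replicate_add]
    congr 2
    omega
  · exact ⟨[], _, h.app_right (Z := .nil △ app (ch (q + 1)) (.nil △ .nil)) (by
      rw [Tsq.ht_node, Tsq.ht_app, Tsq.ht_node, hc', hn]; omega), Or.inr (Or.inl ⟨_, rfl⟩)⟩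
  · have k := (h.app_right (Z := .nil △ ch (q + 1)) (by
      rw [Tsq.ht_node, hc', hn]; omega)).node (Z := .nil) (by rw [hn]; omega)
    rw [List.append_assoc] at k
    exact ⟨[true], _, k, Or.inr (Or.inl ⟨_, rfl⟩)⟩
  · exact ⟨[true], _, h.node (Z := ch (q + 2)) (by rw [hc']; omega), Or.inl ⟨_, rfl⟩⟩
  · have k := (h.node (Z := .nil) (by rw [hn]; omega)).app_left
      (P := app (ch (q + 1)) (.nil △ .nil)) (by
        rw [Tsq.ht_node, Tsq.ht_app, Tsq.ht_node, hc', hn]; omega)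
    have e : W R (ch (q + 1)) B S 8 = app (app (ch (q + 1)) (.nil △ .nil)) (R △ .nil) := by
      rw [app_assoc]; rfl
    rw [e]
    have e2 : wd (app (ch (q + 1)) (.nil △ .nil)) ++ true :: a =
        (wd (app (ch (q + 1)) (.nil △ .nil)) ++ [true]) ++ a := by simp
    rw [e2] at k
    exact ⟨_, _, k, Or.inl ⟨_, rfl⟩⟩
  · have k := (h.node (Z := .nil) (by rw [hn]; omega)).node (Z := ch (q + 1)) (by
      rw [Tsq.ht_node, hc', hn]; omega)
    rw [List.append_assoc] at k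
    exact ⟨[true, true], _, k, Or.inl ⟨_, rfl⟩⟩

/-- the first maximum of `R = B1 (H' () s) B` and what is around it -/
theorem FM_R {c : ℕ} (hc : 2 ≤ c) {B1 H' s B : BinaryTree Unit} (hs : hg c s) (s0 : s ≠ .nil) (hB : hg c B)
    (hH : Tsq.ht (app H' (.nil △ .nil)) < Tsq.ht s) (low : Tsq.ht B1 < Tsq.ht s + 1)
    (top : Tsq.ht B ≤ Tsq.ht s + 1) :
    ∃ a b, FM (gR B1 (app H' (.nil △ .nil)) s B) a b ∧
      (b = List.replicate (Tsq.ht s + 1) false ∨
        ∃ n r, b = List.replicate (n + 1) false ++ (List.replicate c true ++ r)) ∧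
      ((∃ r, a = r ++ [true, false] ++ List.replicate (Tsq.ht s - 1) true) ∨
        ∃ n r, a = r ++ (List.replicate c false ++ List.replicate (n + 1) true)) := by
  obtain ⟨-, us, vs, h1, -, -⟩ := hg_FM (by omega) hs s0
  have hHs : Tsq.ht (app (app H' (.nil △ .nil)) s) = Tsq.ht s := by rw [Tsq.ht_app]; omega
  have k1 := h1.app_left hH
  have k2 := k1.node (Z := B) (by rw [hHs]; exact top)
  have e2 : Tsq.ht (app (app H' (.nil △ .nil)) s △ B) = Tsq.ht s + 1 := by
    rw [Tsq.ht_node, hHs]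
    omega
  have k3 := k2.app_left (P := B1) (by rw [e2]; exact low)
  refine ⟨_, _, k3, ?_, ?_⟩
  · rcases hg_aft (by omega) hs h1 with rfl | ⟨n, r, rfl⟩
    · by_cases h0 : B = .nil
      · left
        subst h0
        rw [List.replicate_succ']
        simp [wd]
      · right
        obtain ⟨r, hr⟩ := hg_start (by omega) hB h0
        refine ⟨Tsq.ht s, r, ?_⟩
        rw [hr, List.replicate_succ']
        simp
    · right
      exact ⟨n, r ++ false :: wd B, by simp⟩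
  · rcases hg_bef hc hs h1 with rfl | ⟨n, r, rfl⟩
    · left
      refine ⟨wd B1 ++ true :: wd H', ?_⟩
      rw [wd_app]
      simp [wd]
    · right
      exact ⟨n, wd B1 ++ true :: (wd (app H' (.nil △ .nil)) ++ r), by simp⟩

/-- **the shapes of the inner words** -/
theorem nat_G {c q : ℕ} (hc : 2 ≤ c) (hcq : c ≤ q + 3) {B1 H' s B S : BinaryTree Unit} (hs : hg c s)
    (s0 : s ≠ .nil) (hB : hg c B) (hH : Tsq.ht (app H' (.nil △ .nil)) < Tsq.ht s)
    (low : Tsq.ht B1 < Tsq.ht s + 1) (top : Tsq.ht B ≤ Tsq.ht s + 1) (big : q + 3 ≤ Tsq.ht s + 1)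
    {x : X k} {i : ℕ} (hi : i ∈ [0, 1, 3, 6, 8, 9])
    (e : x.1 = W (gR B1 (app H' (.nil △ .nil)) s B) (ch (q + 1)) B S i) :
    SN c (wd (TT x).1) ∧ EN c (wd (TT x).1) := by
  have hcs : c ≤ Tsq.ht s := (hg_FM (by omega) hs s0).1
  obtain ⟨a, b, h1, h2, h3⟩ := FM_R hc hs s0 hB hH low top
  have hR : Tsq.ht (gR B1 (app H' (.nil △ .nil)) s B) = Tsq.ht s + 1 := by
    unfold gR
    rw [Tsq.ht_app, Tsq.ht_node, Tsq.ht_app]
    omega
  obtain ⟨P, suf, h4, h5⟩ := FM_W2 (B := B) (S := S) h1 hcq (by rw [hR]; exact big) i hi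
  rw [← e] at h4
  rw [h4.wdT]
  refine ⟨SN_inner (h := Tsq.ht s + 1) (by omega) h2 h5, ?_⟩
  rcases h3 with ⟨r, rfl⟩ | ⟨n, r, rfl⟩
  · right; right
    refine ⟨Tsq.ht s - 1, (b ++ suf).map not ++ false :: (P ++ r).map not, ?_⟩
    simp
  · left
    exact ⟨n + 1, (b ++ suf).map not ++ false :: (P ++ r).map not, by simp⟩

/-- the light word consists of beads -/
theorem bl_beads {H : BinaryTree Unit} (hb : bl H = true) (h0 : H ≠ .nil) (h2 : (cont H).count 2 = 0) :
    ∃ H', H = app H' (.nil △ .nil) := by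
  obtain ⟨H', _, e | e⟩ := bl_last hb h0
  · exact ⟨H', e⟩
  · exfalso
    have c2 : cont ((.nil △ .nil) △ .nil : BinaryTree Unit) = {2} := ch_cont 1
    rw [e, cont_app, c2, Multiset.count_add] at h2
    simp at h2

variable {q : ℕ} {B1 H s B : BinaryTree Unit}

/-- parts of `s` and `B` -/
theorem NodeG.parts (h : NodeG k q B1 H s B) {c : ℕ} (hc : 3 ≤ c)
    (hp : ∀ x ∈ cont (gR B1 H s B), x = 1 ∨ c ≤ x) (ht : c ≤ OddHC.ht s) :
    hg c s ∧ hg c B ∧ (cont H).count 2 = 0 := by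
  have e : cont (gR B1 H s B) = cont B1 + (raise (cont H + cont s) + cont B) := by
    unfold gR
    rw [cont_app, cont_node, cont_app]
  have hH2 := bl_ht h.light
  rw [ht_eq] at hH2
  have hs3 := h.hs3
  have hsup : (cont H + cont s).sup = OddHC.ht s := by
    rw [Multiset.sup_add, ← OddHC.ht_eq, ← OddHC.ht_eq]
    exact sup_eq_right.2 (by omega)
  have key : ∀ x ∈ cont H + cont s, x ≠ OddHC.ht s → x = 1 ∨ c ≤ x := by
    intro x hx hne
    apply hp
    rw [e, Multiset.mem_add, Multiset.mem_add]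
    right; left
    unfold raise
    rw [hsup, Multiset.mem_cons]
    right
    exact (Multiset.mem_erase_of_ne hne).2 hx
  refine ⟨hg_of_cont (by omega) ?_, hg_of_cont (by omega) ?_, ?_⟩
  · intro x hx
    by_cases hne : x = OddHC.ht s
    · omega
    · have h3 := hv_parts h.hs x hx
      rcases key x (Multiset.mem_add.2 (Or.inr hx)) hne with h4 | h4
      · omega
      · exact h4
  · intro x hx
    have h3 := hv_parts h.hB x hx
    rcases hp x (by rw [e]; simp [hx]) with h4 | h4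
    · omega
    · exact h4
  · rw [Multiset.count_eq_zero]
    intro h2
    rcases key 2 (Multiset.mem_add.2 (Or.inl h2)) (by omega) with h4 | h4 <;> omega

/-- **the inner words of a node**, both orientations: all parts but the beads at least `c`, the top larger -/
theorem NodeG.nat (h : NodeG k q B1 H s B) {c : ℕ} (hc : 3 ≤ c) (hcq : c ≤ q + 3)
    (hp : ∀ x ∈ cont (gR B1 H s B), x = 1 ∨ c ≤ x) (ht : c ≤ OddHC.ht s) (w0 : X k) {i : ℕ}
    (hi : i ∈ [0, 1, 3, 6, 8, 9]) {w : X k}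
    (hw : w = TT (gX q B1 H s B w0 i) ∨ w = Tsq.mirX (TT (gX q B1 H s B w0 i))) :
    SN c (wd w.1) ∧ EN c (wd w.1) := by
  obtain ⟨p1, p2, p3⟩ := h.parts hc hp ht
  obtain ⟨H', hH'⟩ := bl_beads h.light h.H0 p3
  have hi' : i < 20 := by
    simp only [List.mem_cons, List.not_mem_nil, or_false] at hi
    omega
  have a1 := bl_ht h.light
  have e1 := h.word w0 hi'
  have a3 := h.hs3
  have a4 := h.low
  have a5 := h.top
  have a6 := h.big
  rw [← ht_eq, ← ht_eq] at a4 a5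
  rw [← ht_eq] at a3 a6
  rw [hH'] at a1
  have h2 : SN c (wd (TT (gX q B1 H s B w0 i)).1) ∧ EN c (wd (TT (gX q B1 H s B w0 i)).1) := by
    refine nat_G (q := q) (B1 := B1) (H' := H') (s := s) (B := B) (by omega) hcq p1 h.s0 p2 (by omega) a4 a5 a6
      (x := gX q B1 H s B w0 i) (S := (Tsq.sq (gR B1 H s B)).1) (i := i) hi ?_
    rw [e1, hH']
  rcases hw with rfl | rfl
  · exact h2
  · exact ⟨h2.2.mir, h2.1.mir⟩

/-- **no inner word of a node is a natural host** `(aV)`, `(Va)`, `((aV)V')`, `(V'(Va))`, `a = [p]`, `2 ≤ p < c` -/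
theorem NodeG.not_nat (h : NodeG k q B1 H s B) {c : ℕ} (hc : 3 ≤ c) (hcq : c ≤ q + 3)
    (hp : ∀ x ∈ cont (gR B1 H s B), x = 1 ∨ c ≤ x) (ht : c ≤ OddHC.ht s) (w0 : X k) {i : ℕ}
    (hi : i ∈ [0, 1, 3, 6, 8, 9]) {w : X k}
    (hw : w = TT (gX q B1 H s B w0 i) ∨ w = Tsq.mirX (TT (gX q B1 H s B w0 i))) {p : ℕ} (hp2 : 2 ≤ p)
    (hpc : p < c) {Y : BinaryTree Unit} (hY : NatX p Y) : w.1 ≠ Y △ .nil := by
  obtain ⟨h1, h2⟩ := h.nat hc hcq hp ht w0 hi hw
  exact hY.not_nat hp2 hpc h1 h2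

end H1

open H1

variable {k : ℕ} {F : Set (Cyc k)} {g : DG k}

/-- **type A: the shapes of the inner words**, both orientations; in the contents of the classes of `F` all parts but the
beads are at least `c`, the top is larger than `c` -/
theorem TyA.nat (h : TyA F g) {c : ℕ} (hc : 3 ≤ c) (hp : ∀ p ∈ F, ∀ x ∈ contc p, x = 1 ∨ c ≤ x)
    (ht : ∀ p ∈ F, c < (contc p).sup) {a : X k × X k} (ha : a ∈ g.arcs) {v w : X k} (hv : v ∈ innA a)
    (hw : w = v ∨ w = Tsq.mirX v) : SN c (wd w.1) ∧ EN c (wd w.1) := by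
  obtain ⟨q, B1, H, s, B, w0, hG, rfl, rfl⟩ := h
  obtain ⟨i, hi, e⟩ := arcs_cases' ha
  rw [e] at hv
  have e1 : v = TT (gX q B1 H s B w0 i) := hv
  subst e1
  have e2 : contc (cyc (gX q B1 H s B w0 0)) = cont (gR B1 H s B) + {q + 3} := by
    rw [contc_cyc, hG.cont0]
  have hp' := hp (cyc (gX q B1 H s B w0 0)) rfl
  have ht' := ht (cyc (gX q B1 H s B w0 0)) rfl
  rw [e2] at hp' ht'
  have hcq : c ≤ q + 3 := by
    rcases hp' (q + 3) (by simp) with h1 | h1
    · omega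
    · exact h1
  have hR := hG.ht
  have hb := hG.big
  rw [Multiset.sup_add, ← OddHC.ht_eq, Multiset.sup_singleton, hR] at ht'
  have hts : c ≤ OddHC.ht s := by
    rw [lt_sup_iff] at ht'
    omega
  exact hG.nat hc hcq (fun x hx => hp' x (Multiset.mem_add.2 (Or.inl hx))) hts w0 hi hw

/-- **type A: no inner word is a natural host** `(X)`, `X = aV`, `Va`, `(aV)V'`, `V'(Va)`, `a = [p]`, `2 ≤ p < c` -/
theorem TyA.not_nat (h : TyA F g) {c : ℕ} (hc : 3 ≤ c) (hp : ∀ p ∈ F, ∀ x ∈ contc p, x = 1 ∨ c ≤ x)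
    (ht : ∀ p ∈ F, c < (contc p).sup) {a : X k × X k} (ha : a ∈ g.arcs) {v w : X k} (hv : v ∈ innA a)
    (hw : w = v ∨ w = Tsq.mirX v) {p : ℕ} (hp2 : 2 ≤ p) (hpc : p < c) {Y : BinaryTree Unit}
    (hY : NatX p Y) : w.1 ≠ Y △ .nil := by
  obtain ⟨h1, h2⟩ := h.nat hc hp ht ha hv hw
  exact hY.not_nat hp2 hpc h1 h2

end Pool.OddHC
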