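import Pool.Agent.Work.MP_8f87b2_h11.RHz
import Pool.Agent.Work.MP_8f87b2_h62.W3c

/-!
MP_8f87b2_co: bead positions of the words `W R () B S i` (marker with one bead), and first and last beads of the words of
the windows of height 3 and of the words with one hidden bead.
-/

set_option autoImplicit false

namespace Pool.OddHC

open BinaryTree Pool.Agent.Work.MP_8f87b2_co

namespace TL

open Ft

/-- number of letters of the reduced word of `W R () B S i` -/
def LN1 (r b s : ℕ) : ℕ → ℕ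
  | 0 => r + 4
  | 1 => r
  | 2 => r
  | 3 => r + 2
  | 4 => r + 2
  | 5 => r + 2
  | 6 => r + 4
  | 7 => r + 2
  | 8 => r + 2
  | 9 => r + 4
  | 10 => b + s + 4
  | 11 => b + s
  | 12 => s + b + 2
  | 13 => s + b + 2
  | 14 => s + b + 2
  | 15 => s + b + 4
  | 16 => if b = 0 then s + 2 else s + b + 4
  | 17 => s + b + 4
  | 18 => if b = 0 then s else s + b + 2
  | _ => if b = 0 then s + 2 else s + b + 4

/-- the gaps of the beads of `W R () B S i` -/
def PP1 (R B S : List ℕ) (r b s : ℕ) : ℕ → List ℕ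
  | 0 => R
  | 1 => R ++ [r, r, r]
  | 2 => 0 :: (R ++ [r, r])
  | 3 => R.map (· + 1) ++ [r + 1, r + 1]
  | 4 => 1 :: R.map (· + 2)
  | 5 => 2 :: R.map (· + 2)
  | 6 => R.map (· + 1)
  | 7 => 0 :: 1 :: R.map (· + 1)
  | 8 => 0 :: 0 :: R.map (· + 1)
  | 9 => R.map (· + 2) ++ [r + 4]
  | 10 => B ++ S.map (· + (b + 4))
  | 11 => B ++ b :: b :: b :: S.map (· + b)
  | 12 => S.map (· + 1) ++ (B.map (· + (s + 2)) ++ [s + b + 2, s + b + 2])
  | 13 => if b = 0 then S ++ [s + 1] else S ++ (B.map (· + (s + 1)) ++ [s + b + 1, s + b + 1])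
  | 14 => 1 :: 1 :: (S.map (· + 1) ++ B.map (· + (s + 2)))
  | 15 => S.map (· + 3) ++ B.map (· + (s + 4))
  | 16 => if b = 0 then S ++ [s] else S ++ B.map (· + (s + 1))
  | 17 => 0 :: (S.map (· + 2) ++ B.map (· + (s + 3)))
  | 18 => if b = 0 then 0 :: 0 :: (S ++ [s]) else 0 :: 0 :: (S ++ B.map (· + (s + 1)))
  | _ => if b = 0 then S.map (· + 1) ++ [s + 1, s + 2] else
      S.map (· + 1) ++ (B.map (· + (s + 2)) ++ [s + b + 4])

/-- the table -/
theorem LN_PP1 {R B S : BinaryTree Unit} (hR : 0 < ln R) (hS : 0 < ln S)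
    (hB : B = .nil ∨ 0 < ln B) {i : ℕ} (hi : i < 20) :
    ln (H1.W R (.nil △ .nil) B S i) = LN1 (ln R) (ln B) (ln S) i ∧
      ps (H1.W R (.nil △ .nil) B S i) = PP1 (ps R) (ps B) (ps S) (ln R) (ln B) (ln S) i := by
  have l0 : ln (.nil △ .nil) = 0 := rfl
  have p0 : ps (.nil △ .nil) = [0] := rfl
  have l00 : ln ((.nil △ .nil) △ .nil) = 2 := rfl
  have p00 : ps ((.nil △ .nil) △ .nil) = [] := rfl
  have lb0 : ∀ X, ln ((.nil △ .nil) △ X) = ln X + 2 := by
    intro X
    rw [ln_node (by simp), l0]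
    omega
  have pb0 : ∀ X, ps ((.nil △ .nil) △ X) = (ps X).map (· + 2) := by
    intro X
    rw [ps_node' (by simp), l0]
    rfl
  have lc0 : ∀ X, ln (((.nil △ .nil) △ .nil) △ X) = ln X + 4 := by
    intro X
    rw [ln_node (by simp), l00]
    omega
  have pc0 : ∀ X, ps (((.nil △ .nil) △ .nil) △ X) = (ps X).map (· + 4) := by
    intro X
    rw [ps_node' (by simp), l00, pu_pos (by rw [l00]; norm_num), p00]
    rfl
  have lm : ln (.nil △ (.nil △ .nil)) = 0 := rfl
  have pm : ps (.nil △ (.nil △ .nil)) = [0, 0] := rfl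
  have ld0 : ∀ X, ln ((.nil △ (.nil △ .nil)) △ X) = ln X + 2 := by
    intro X
    rw [ln_node (by simp), lm]
    omega
  have pd0 : ∀ X, ps ((.nil △ (.nil △ .nil)) △ X) = 1 :: (ps X).map (· + 2) := by
    intro X
    rw [ps_node' (by simp), lm, pu_zero lm, pm]
    rfl
  have nR := fun X => ln_node' hR X
  have mR := fun X => ps_node hR X
  have nS := fun X => ln_node' hS X
  have mS := fun X => ps_node hS X
  have a1 : 0 < ln (app R (.nil △ (.nil △ .nil))) := by rw [ln_app]; omega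
  have a2 : ∀ X, 0 < ln (S △ X) := by intro X; rw [nS]; omega
  have a3 : ∀ X, 0 < ln (app S X) := by intro X; rw [ln_app]; omega
  have a4 : 0 < ln (R △ .nil) := by rw [nR]; omega
  have a5 : 0 < ln (.nil △ R) := by rw [ln_leaf]; exact hR
  have a6 : 0 < ln (.nil △ (.nil △ S)) := by rw [ln_leaf, ln_leaf]; exact hS
  have b0 : ln (.nil : BinaryTree Unit) = 0 := rfl
  have c0 : ps (.nil : BinaryTree Unit) = [] := rfl
  rcases hB with rfl | hB
  · interval_cases i <;> refine ⟨?_, ?_⟩ <;>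
      simp only [H1.W, LN1, PP1, app, H1.app_nil, ln_leaf, ps_leaf, ln_app, ps_app, lb0, pb0, lc0, pc0, ld0, pd0,
        nR, mR, nS, mS,
        ln_node' a1, ps_node a1, ln_node' (a2 _), ps_node (a2 _), ln_node' (a3 _), ps_node (a3 _),
        ln_node' a4, ps_node a4, ln_node' a5, ps_node a5, ln_node' a6, ps_node a6, b0, c0,
        List.map_nil, List.map_cons, List.append_nil, List.nil_append, List.map_append, map_add_add,
        if_true, Nat.zero_add, Nat.add_zero, List.cons_append, List.append_assoc]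
    all_goals first | (simp; done) | (simp; omega)
  · have hBz : ¬ ln B = 0 := by omega
    have nB := fun X => ln_node' hB X
    have mB := fun X => ps_node hB X
    have a8 : 0 < ln (app B (.nil △ (.nil △ .nil))) := by rw [ln_app]; omega
    interval_cases i <;> refine ⟨?_, ?_⟩ <;>
      simp only [H1.W, LN1, PP1, app, H1.app_nil, ln_leaf, ps_leaf, ln_app, ps_app, lb0, pb0, lc0, pc0, ld0, pd0,
        nR, mR, nS, mS,
        nB, mB, ln_node' a8, ps_node a8,
        ln_node' a1, ps_node a1, ln_node' (a2 _), ps_node (a2 _), ln_node' (a3 _), ps_node (a3 _),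
        ln_node' a4, ps_node a4, ln_node' a5, ps_node a5, ln_node' a6, ps_node a6, b0, c0,
        List.map_nil, List.map_cons, List.append_nil, List.nil_append, List.map_append, map_add_add,
        if_neg hBz, Nat.zero_add, Nat.add_zero, List.cons_append, List.append_assoc]
    all_goals first
      | omega
      | (rw [show 1 + ln S = ln S + 1 by omega, show ln B + 1 + ln S = ln S + ln B + 1 by omega])
      | (rw [show 4 + ln B = ln B + 4 by omega])
      | (rw [show 1 + ln S + 1 = ln S + 2 by omega, show ln S + (ln B + 2) + 2 = ln S + ln B + 4 by omega])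
      | (rw [show ln B + (ln S + 2) = ln S + ln B + 2 by omega])
      | (rw [show 1 + ln S = ln S + 1 by omega])

/-! ### First and last bead -/

/-- letters of the reduced word, number of beads, first and last gap -/
structure Fe (w : BinaryTree Unit) (L c h l : ℕ) : Prop where
  ln : ln w = L
  len : (ps w).length = c
  hd : (ps w).head? = some h
  la : (ps w).getLast? = some l

theorem Fe.uniq {w : BinaryTree Unit} {L c h l L' c' h' l' : ℕ} (a : Fe w L c h l) (b : Fe w L' c' h' l') :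
    L = L' ∧ c = c' ∧ h = h' ∧ l = l' := by
  have h1 := a.hd
  have h2 := a.la
  rw [b.hd] at h1
  rw [b.la] at h2
  exact ⟨a.ln.symm.trans b.ln, a.len.symm.trans b.len, (Option.some.inj h1).symm, (Option.some.inj h2).symm⟩

theorem Fe.mir {w : BinaryTree Unit} {L c h l : ℕ} (a : Fe w L c h l) :
    Fe (Tsq.mir w) L c (L - l) (L - h) := by
  refine ⟨by rw [ln_mir, a.ln], by rw [ps_mir, List.length_map, List.length_reverse, a.len], ?_, ?_⟩
  · rw [ps_mir, List.head?_map, List.head?_reverse, a.la, a.ln]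
    rfl
  · rw [ps_mir, List.getLast?_map, List.getLast?_reverse, a.hd, a.ln]
    rfl

/-! ### The windows of height 3 -/

def tL (b a : ℕ) : ℕ → ℕ
  | 0 => 2 * a + 8 + 4 * b
  | 1 => 2 * a + 4 + 4 * b
  | 2 => 2 * a + 4 + 4 * b
  | 3 => 2 * a + 6 + 4 * b
  | 4 => 2 * a + 6 + 4 * b
  | 5 => 2 * a + 6 + 4 * b
  | 6 => 2 * a + 8 + 4 * b
  | 7 => 2 * a + 6 + 4 * b
  | 8 => 2 * a + 6 + 4 * b
  | 9 => 2 * a + 8 + 4 * b
  | 10 => 2 * a + 8 + 4 * b
  | 11 => 2 * a + 4 + 4 * b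
  | 12 => 2 * a + 6 + 4 * b
  | 13 => 2 * a + 6 + 4 * b
  | 14 => 2 * a + 6 + 4 * b
  | 15 => 2 * a + 8 + 4 * b
  | 16 => if b = 0 then 2 * a + 6 else 2 * a + 8 + 4 * b
  | 17 => 2 * a + 8 + 4 * b
  | 18 => if b = 0 then 2 * a + 4 else 2 * a + 6 + 4 * b
  | _ => if b = 0 then 2 * a + 6 else 2 * a + 8 + 4 * b

def tC (b m : ℕ) : ℕ → ℕ
  | 0 => m
  | 1 => m + 3
  | 2 => m + 3
  | 3 => m + 2
  | 4 => m + 1
  | 5 => m + 1
  | 6 => m
  | 7 => m + 2
  | 8 => m + 2
  | 9 => m + 1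
  | 10 => m
  | 11 => m + 3
  | 12 => m + 2
  | 13 => if b = 0 then m + 1 else m + 2
  | 14 => m + 2
  | 15 => m
  | 16 => if b = 0 then m + 1 else m
  | 17 => m + 1
  | 18 => if b = 0 then m + 3 else m + 2
  | _ => if b = 0 then m + 2 else m + 1

def tH (b : ℕ) : ℕ → ℕ
  | 0 => 3
  | 1 => 3
  | 2 => 0
  | 3 => 4
  | 4 => 1
  | 5 => 2
  | 6 => 4
  | 7 => 0
  | 8 => 0
  | 9 => 5
  | 10 => 4 * b + 8
  | 11 => 4 * b
  | 12 => 5
  | 13 => 4
  | 14 => 1
  | 15 => 7
  | 16 => 4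
  | 17 => 0
  | 18 => 0
  | _ => 5

def tE (b a : ℕ) : ℕ → ℕ
  | 0 => 3
  | 1 => 2 * a + 4 + 4 * b
  | 2 => 2 * a + 4 + 4 * b
  | 3 => 2 * a + 5 + 4 * b
  | 4 => 5
  | 5 => 5
  | 6 => 4
  | 7 => 4
  | 8 => 4
  | 9 => 2 * a + 8 + 4 * b
  | 10 => 4 * b + 8
  | 11 => 4 * b + 4
  | 12 => 2 * a + 6 + 4 * b
  | 13 => 2 * a + 5 + 4 * b
  | 14 => 5
  | 15 => 7
  | 16 => if b = 0 then 2 * a + 4 else 4
  | 17 => 6
  | 18 => if b = 0 then 2 * a + 4 else 4
  | _ => if b = 0 then 2 * a + 6 else 2 * a + 8 + 4 * b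

theorem ln_lv2 (a : ℕ) : ln (lv2 a .nil) = 2 * a ∧ ps (lv2 a .nil) = [] := by
  induction a with
  | zero => exact ⟨rfl, rfl⟩
  | succ a ih =>
    have e : lv2 (a + 1) .nil = (.nil △ .nil) △ lv2 a .nil := rfl
    have l0 : ln ((.nil : BinaryTree Unit) △ .nil) = 0 := rfl
    refine ⟨?_, ?_⟩
    · rw [e, ln_node (by simp), l0, ih.1]; ring
    · rw [e, ps_node' (by simp), l0, ih.2]; rfl

theorem ln_L3 (m a : ℕ) : ln (H1.L3 m a) = 2 * a ∧ ps (H1.L3 m a) = List.replicate m 0 := by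
  unfold H1.L3
  induction m with
  | zero => exact ln_lv2 a
  | succ m ih =>
    change ln (.nil △ lv m (lv2 a .nil)) = _ ∧ ps (.nil △ lv m (lv2 a .nil)) = _
    rw [ln_leaf, ps_leaf, ih.1, ih.2, List.replicate_succ]
    exact ⟨rfl, rfl⟩

theorem ln_th (b : ℕ) : ln (H1.th b .nil) = 4 * b ∧ ps (H1.th b .nil) = [] := by
  induction b with
  | zero => exact ⟨rfl, rfl⟩
  | succ b ih =>
    have e : H1.th (b + 1) .nil = ((.nil △ .nil) △ .nil) △ H1.th b .nil := rfl
    have l0 : ln (((.nil : BinaryTree Unit) △ .nil) △ .nil) = 2 := rfl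
    have p0 : ps (((.nil : BinaryTree Unit) △ .nil) △ .nil) = [] := rfl
    refine ⟨?_, ?_⟩
    · rw [e, ln_node (by simp), l0, ih.1]; ring
    · rw [e, ps_node' (by simp), l0, ih.2, pu_pos (by rw [l0]; norm_num), p0]; rfl

theorem ln_S3 (m a : ℕ) : ln (H1.S3 m a) = 2 * a + 4 ∧ ps (H1.S3 m a) = List.replicate m 4 := by
  have e : H1.S3 m a = ((.nil △ .nil) △ .nil) △ H1.L3 m a := rfl
  have l0 : ln (((.nil : BinaryTree Unit) △ .nil) △ .nil) = 2 := rfl
  have p0 : ps (((.nil : BinaryTree Unit) △ .nil) △ .nil) = [] := rfl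
  obtain ⟨h1, h2⟩ := ln_L3 m a
  refine ⟨?_, ?_⟩
  · rw [e, ln_node (by simp), l0, h1]; ring
  · rw [e, ps_node' (by simp), l0, h2, pu_pos (by rw [l0]; norm_num), p0]
    simp

theorem ln_R3 (b m a : ℕ) : ln (H1.R3 b m a) = 2 * a + 4 + 4 * b ∧
    ps (H1.R3 b m a) = List.replicate m 3 := by
  have e : H1.R3 b m a = ((.nil △ .nil) △ H1.L3 m a) △ H1.th b .nil := rfl
  have l0 : ln ((.nil : BinaryTree Unit) △ .nil) = 0 := rfl
  obtain ⟨h1, h2⟩ := ln_L3 m a
  obtain ⟨h3, h4⟩ := ln_th b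
  have e1 : ln ((.nil △ .nil) △ H1.L3 m a) = 2 * a + 2 := by
    rw [ln_node (by simp), l0, h1]; ring
  have e2 : ps ((.nil △ .nil) △ H1.L3 m a) = List.replicate m 2 := by
    rw [ps_node' (by simp), l0, h2]
    have : pu ((.nil : BinaryTree Unit) △ .nil) = [] := rfl
    rw [this]
    simp
  refine ⟨?_, ?_⟩
  · rw [e, ln_node' (by rw [e1]; omega), e1, h3]; ring
  · rw [e, ps_node (by rw [e1]; omega), e1, e2, h4]
    simp

/-- the features of the words of the windows of height 3 -/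
theorem FeT {b m a : ℕ} (hm : 1 ≤ m) {j : ℕ} (hj : j < 20) :
    Fe (H1.W (H1.R3 b m a) (.nil △ .nil) (H1.th b .nil) (H1.S3 m a) j) (tL b a j) (tC b m j) (tH b j)
      (tE b a j) := by
  obtain ⟨n, rfl⟩ : ∃ n, m = n + 1 := ⟨m - 1, by omega⟩
  obtain ⟨r1, r2⟩ := ln_R3 b (n + 1) a
  obtain ⟨s1, s2⟩ := ln_S3 (n + 1) a
  obtain ⟨b1, b2⟩ := ln_th b
  have hB : H1.th b .nil = .nil ∨ 0 < ln (H1.th b .nil) := by
    rcases Nat.eq_zero_or_pos b with rfl | h
    · exact Or.inl rfl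
    · right; rw [b1]; omega
  obtain ⟨t1, t2⟩ := LN_PP1 (by rw [r1]; omega) (by rw [s1]; omega) hB hj
  rw [r1, s1, b1] at t1 t2
  rw [r2, s2, b2] at t2
  rcases Nat.eq_zero_or_pos b with h0 | h0
  · subst h0
    refine ⟨?_, ?_, ?_, ?_⟩
    · rw [t1]; interval_cases j <;> simp [LN1, tL] <;> omega
    · rw [t2]; interval_cases j <;> simp [PP1, tC] <;> omega
    · rw [t2]; interval_cases j <;> simp [PP1, tH, List.replicate_succ] <;> omega
    · clear t1 r1 r2 s1 s2 b1 b2 hB; rw [t2]; clear t2; interval_cases j <;> simp [PP1, tE, List.getLast?_append, List.getLast?_cons, List.getLast?_replicate] <;> omega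
  · have hb : ¬ b = 0 := by omega
    have hb4 : ¬ 4 * b = 0 := by omega
    refine ⟨?_, ?_, ?_, ?_⟩
    · rw [t1]; interval_cases j <;> simp [LN1, tL, hb] <;> omega
    · rw [t2]; interval_cases j <;> simp [PP1, tC, hb] <;> omega
    · rw [t2]; interval_cases j <;> simp [PP1, tH, List.replicate_succ, hb] <;> omega
    · clear t1 r1 r2 s1 s2 b1 b2 hB; rw [t2]; clear t2; interval_cases j <;> simp [PP1, tE, List.getLast?_append, List.getLast?_cons, List.getLast?_replicate, hb] <;> omega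

end TL

end Pool.OddHC
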