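import Pool.Agent.Work.MP_8f87b2_h41.TL0
import Pool.Agent.Work.MP_8f87b2_h26.TyL1

/-!
MP_8f87b2_co, row W-T-L1: no common word of the windows of height 3 (type T) and the gadgets of type L1 (`k ≥ 10`).
-/

set_option autoImplicit false

namespace Pool.OddHC

open BinaryTree Pool.Agent.Work.MP_8f87b2_co

namespace TL

open Ft

variable {k n : ℕ}

/-! ### Tables -/

/-- number of beads -/
def aC : ℕ → ℕ
  | 0 => 1 | 1 => 3 | 2 => 3 | 3 => 2 | 4 => 1 | 5 => 3 | 6 => 2 | 7 => 2 | 8 => 2 | 9 => 1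
  | 10 => 1 | 11 => 3 | 12 => 2 | 13 => 2 | 14 => 2 | 15 => 2 | 16 => 2 | 17 => 1 | 18 => 2 | _ => 1

def aH (x y s : ℕ) : ℕ → ℕ
  | 0 => x | 1 => x | 2 => 0 | 3 => x + 1 | 4 => x + 2 | 5 => 0 | 6 => x + 1 | 7 => 1 | 8 => 0 | 9 => x + 2
  | 10 => y | 11 => y | 12 => y + (s + 2) | 13 => y + (s + 1) | 14 => 1 | 15 => 0 | 16 => y + (s + 1)
  | 17 => y + (s + 3) | 18 => 0 | _ => y + (s + 2)

def aE (x y N b s : ℕ) : ℕ → ℕ
  | 0 => x | 1 => N | 2 => N | 3 => N + 1 | 4 => x + 2 | 5 => x | 6 => N + 2 | 7 => x + 1 | 8 => x + 1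
  | 9 => x + 2 | 10 => y | 11 => b | 12 => s + b + 2 | 13 => s + b + 1 | 14 => y + (s + 2)
  | 15 => y + (s + 2) | 16 => s + b + 2 | 17 => y + (s + 3) | 18 => y + (s + 1) | _ => y + (s + 2)

def zC : ℕ → ℕ
  | 0 => 1 | 1 => 3 | 2 => 3 | 3 => 2 | 4 => 1 | 5 => 3 | 6 => 2 | 7 => 2 | 8 => 2 | 9 => 1
  | 10 => 1 | 11 => 3 | 12 => 2 | 13 => 1 | 14 => 2 | 15 => 2 | 16 => 3 | 17 => 1 | 18 => 3 | _ => 2

def zH (x y : ℕ) : ℕ → ℕ
  | 0 => x | 1 => x | 2 => 0 | 3 => x + 1 | 4 => x + 2 | 5 => 0 | 6 => x + 1 | 7 => 1 | 8 => 0 | 9 => x + 2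
  | 10 => y + 2 | 11 => 0 | 12 => y + 1 | 13 => y | 14 => 1 | 15 => 0 | 16 => y | 17 => y + 2 | 18 => 0
  | _ => y + 1

def zE (x y N : ℕ) : ℕ → ℕ
  | 0 => x | 1 => N | 2 => N | 3 => N + 1 | 4 => x + 2 | 5 => x | 6 => N + 2 | 7 => x + 1 | 8 => x + 1
  | 9 => x + 2 | 10 => y + 2 | 11 => y | 12 => N + 2 | 13 => y | 14 => y + 1 | 15 => y + 1 | 16 => N
  | 17 => y + 2 | 18 => N | _ => N + 1

/-- heights -/
def gh (h : ℕ) : ℕ → ℕ
  | 0 => h | 1 => h | 2 => h | 3 => h + 1 | 4 => h | 5 => h | 6 => h + 1 | 7 => h + 1 | 8 => h + 1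
  | 9 => h + 2 | 10 => h | 11 => h | 12 => h + 1 | 13 => h | 14 => h + 1 | 15 => h + 1 | 16 => h
  | 17 => h + 2 | 18 => h | _ => h + 1

def th3 (b : ℕ) : ℕ → ℕ
  | 0 => 3 | 1 => 3 | 2 => 3 | 3 => 4 | 4 => 3 | 5 => 3 | 6 => 4 | 7 => 4 | 8 => 4 | 9 => 5
  | 10 => 3 | 11 => 3 | 12 => 4 | 13 => if b = 0 then 3 else 4 | 14 => 4 | 15 => 4
  | 16 => if b = 0 then 3 else 4 | 17 => 5 | 18 => if b = 0 then 3 else 4 | _ => if b = 0 then 4 else 5

theorem FeA {R B S : BinaryTree Unit} (h : LT R B S) {i : ℕ} (hi : i < 20) : ∃ x y,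
    x + 1 = ln R ∧ y + 1 = ln B ∧ 0 < y ∧
    Fe (H1.W R .nil B S i) (LN (ln R) (ln B) (ln S) i) (aC i) (aH x y (ln S) i) (aE x y (ln R) (ln B) (ln S) i) := by
  obtain ⟨hr, hs, hb⟩ := h.pos
  obtain ⟨x, hx, pR⟩ := h.pR
  obtain ⟨y, hy, hy0, pB⟩ := h.pB
  obtain ⟨l1, l3⟩ := LN_PP hr hs (Or.inr hb) hi
  rw [pR, pB, h.pS] at l3
  have hbz : ¬ ln B = 0 := by omega
  refine ⟨x, y, hx, hy, hy0, l1, ?_, ?_, ?_⟩
  · rw [l3]; interval_cases i <;> simp [PP, aC, hbz]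
  · rw [l3]; interval_cases i <;> simp [PP, aH, hbz]
  · rw [l3]; interval_cases i <;> simp [PP, aE, hbz, List.getLast?_append, List.getLast?_cons]

theorem FeZ {R S : BinaryTree Unit} (h : LZ R S) {i : ℕ} (hi : i < 20) : ∃ x y,
    x + 3 = ln R ∧ y + 2 = ln R ∧
    Fe (H1.W R .nil .nil S i) (LN (ln R) 0 (ln R) i) (zC i) (zH x y i) (zE x y (ln R) i) := by
  obtain ⟨x, hx, pR⟩ := h.pR
  obtain ⟨y, hy, pS⟩ := h.pS
  have h6 := h.s6
  obtain ⟨l1, l3⟩ := LN_PP (R := R) (B := .nil) (S := S) (by omega) (by rw [h.sum]; omega) (Or.inl rfl) hi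
  rw [pR, pS, h.sum] at l3
  rw [h.sum] at l1
  refine ⟨x, y, hx, hy, l1, ?_, ?_, ?_⟩
  · rw [l3]; interval_cases i <;> simp [PP, zC, ln_nil, ps_nil]
  · rw [l3]; interval_cases i <;> simp [PP, zH, ln_nil, ps_nil]
  · rw [l3]; interval_cases i <;> simp [PP, zE, ln_nil, ps_nil, List.getLast?_append, List.getLast?_cons]

/-- heights of the words -/
theorem ht_gW {R B S : BinaryTree Unit} {h : ℕ} (h3 : 3 ≤ h) (hR : OddHC.ht R = h) (hS : OddHC.ht S = h)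
    (hB : OddHC.ht B ≤ 2) {i : ℕ} (hi : i < 20) : OddHC.ht (H1.W R .nil B S i) = gh h i := by
  have h0 : OddHC.ht (BinaryTree.nil : BinaryTree Unit) = 0 := rfl
  interval_cases i <;> simp only [H1.W, gh, ht_app, ht_node, h0, hR, hS] <;> omega

theorem ht_L3' (m a : ℕ) : OddHC.ht (H1.L3 m a) ≤ 2 := by
  have h0 : OddHC.ht (BinaryTree.nil : BinaryTree Unit) = 0 := rfl
  have h2 : OddHC.ht (lv2 a .nil) ≤ 2 := by
    induction a with
    | zero => exact Nat.zero_le _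
    | succ a ih =>
      change OddHC.ht ((.nil △ .nil) △ lv2 a .nil) ≤ 2
      rw [ht_node, ht_node, h0]
      omega
  unfold H1.L3
  induction m with
  | zero => exact h2
  | succ m ih =>
    change OddHC.ht (.nil △ lv m (lv2 a .nil)) ≤ 2
    rw [ht_node, h0]
    omega

theorem ht_tW {b m a : ℕ} {j : ℕ} (hj : j < 20) :
    OddHC.ht (H1.W (H1.R3 b m a) (.nil △ .nil) (H1.th b .nil) (H1.S3 m a) j) = th3 b j := by
  have h0 : OddHC.ht (BinaryTree.nil : BinaryTree Unit) = 0 := rfl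
  have hR : OddHC.ht (H1.R3 b m a) = 3 := H1.ht_R3 b m a
  have hL := ht_L3' m a
  have hS : OddHC.ht (H1.S3 m a) = 3 := by
    change OddHC.ht (((.nil △ .nil) △ .nil) △ H1.L3 m a) = 3
    rw [ht_node, ht_node, ht_node, h0]
    omega
  rcases Nat.eq_zero_or_pos b with hb | hb
  · subst hb
    have hB : OddHC.ht (H1.th 0 .nil) = 0 := rfl
    interval_cases j <;> simp only [H1.W, th3, ht_app, ht_node, h0, hR, hS, hB] <;> simp <;> omega
  · have hB : OddHC.ht (H1.th b .nil) = 3 := by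
      obtain ⟨b, rfl⟩ : ∃ c, b = c + 1 := ⟨b - 1, by omega⟩
      clear hb hR
      induction b with
      | zero => rfl
      | succ b ih =>
        change OddHC.ht (((.nil △ .nil) △ .nil) △ H1.th (b + 1) .nil) = 3
        rw [ht_node, ih, ht_node, ht_node, h0]
        rfl
    have hbz : ¬ b = 0 := by omega
    interval_cases j <;> simp only [H1.W, th3, ht_app, ht_node, h0, hR, hS, hB, if_neg hbz] <;> omega

end TL

end Pool.OddHC
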