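import Pool.Agent.Work.MP_8f87b2_h41.TL1

/-!
MP_8f87b2_co, row W-T-L1: comparison of the tables (first and last bead, number of beads, heights).
-/

set_option autoImplicit false

namespace Pool.OddHC

open BinaryTree Pool.Agent.Work.MP_8f87b2_co

namespace TL

open Ft

/-! ### Residues -/

/-- number of beads of the marker words, without the pile -/
def cT (z : Bool) : ℕ → ℕ
  | 0 => 0  | 1 => 3  | 2 => 3  | 3 => 2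
  | 4 => 1  | 5 => 1  | 6 => 0  | 7 => 2
  | 8 => 2  | 9 => 1  | 10 => 0  | 11 => 3
  | 12 => 2  | 13 => if z then 1 else 2  | 14 => 2  | 15 => 0
  | 16 => if z then 1 else 0  | 17 => 1  | 18 => if z then 3 else 2  | _ => if z then 2 else 1


/-- heights above 3 -/
def eT (z : Bool) : ℕ → ℕ
  | 0 => 0  | 1 => 0  | 2 => 0  | 3 => 1
  | 4 => 0  | 5 => 0  | 6 => 1  | 7 => 1
  | 8 => 1  | 9 => 2  | 10 => 0  | 11 => 0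
  | 12 => 1  | 13 => if z then 0 else 1  | 14 => 1  | 15 => 1
  | 16 => if z then 0 else 1  | 17 => 2  | 18 => if z then 0 else 1  | _ => if z then 1 else 2


/-- first gap modulo 2 -/
def qH : ℕ → ℕ
  | 0 => 1  | 1 => 1  | 2 => 0  | 3 => 0  | 4 => 1  | 5 => 0  | 6 => 0  | 7 => 0
  | 8 => 0  | 9 => 1  | 10 => 0  | 11 => 0  | 12 => 1  | 13 => 0  | 14 => 1  | 15 => 1
  | 16 => 0  | 17 => 0  | 18 => 0 | _ => 1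

/-- last gap modulo 2 -/
def qE (z : Bool) : ℕ → ℕ
  | 0 => 1  | 1 => 0  | 2 => 0  | 3 => 1
  | 4 => 1  | 5 => 1  | 6 => 0  | 7 => 0
  | 8 => 0  | 9 => 0  | 10 => 0  | 11 => 0
  | 12 => 0  | 13 => 1  | 14 => 1  | 15 => 1
  | 16 => 0  | 17 => 0  | 18 => 0  | _ => 0


def dg : ℕ → ℕ
  | 0 => 0  | 1 => 0  | 2 => 0  | 3 => 1  | 4 => 0  | 5 => 0  | 6 => 1  | 7 => 1
  | 8 => 1  | 9 => 2  | 10 => 0  | 11 => 0  | 12 => 1  | 13 => 0  | 14 => 1  | 15 => 1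
  | 16 => 0  | 17 => 2  | 18 => 0 | _ => 1

def pAH : ℕ → ℕ
  | 0 => 1  | 1 => 1  | 2 => 0  | 3 => 0  | 4 => 1  | 5 => 0  | 6 => 0  | 7 => 1
  | 8 => 0  | 9 => 1  | 10 => 1  | 11 => 1  | 12 => 1  | 13 => 0  | 14 => 1  | 15 => 0
  | 16 => 0  | 17 => 0  | 18 => 0 | _ => 1

def pAE : ℕ → ℕ
  | 0 => 1  | 1 => 0  | 2 => 0  | 3 => 1  | 4 => 1  | 5 => 1  | 6 => 0  | 7 => 0
  | 8 => 0  | 9 => 1  | 10 => 1  | 11 => 0  | 12 => 0  | 13 => 1  | 14 => 1  | 15 => 1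
  | 16 => 0  | 17 => 0  | 18 => 0 | _ => 1

def pZH : ℕ → ℕ
  | 0 => 1  | 1 => 1  | 2 => 0  | 3 => 0  | 4 => 1  | 5 => 0  | 6 => 0  | 7 => 1
  | 8 => 0  | 9 => 1  | 10 => 0  | 11 => 0  | 12 => 1  | 13 => 0  | 14 => 1  | 15 => 0
  | 16 => 0  | 17 => 0  | 18 => 0 | _ => 1

def pZE : ℕ → ℕ
  | 0 => 1  | 1 => 0  | 2 => 0  | 3 => 1  | 4 => 1  | 5 => 1  | 6 => 0  | 7 => 0
  | 8 => 0  | 9 => 1  | 10 => 0  | 11 => 0  | 12 => 0  | 13 => 0  | 14 => 1  | 15 => 1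
  | 16 => 0  | 17 => 0  | 18 => 0 | _ => 1


theorem tC_eq (t m : ℕ) {j : ℕ} (hj : j < 20) : tC t m j = m + cT (decide (t = 0)) j := by
  by_cases h : t = 0
  · subst h; interval_cases j <;> rfl
  · interval_cases j <;> simp [tC, cT, h]

theorem th3_eq (t : ℕ) {j : ℕ} (hj : j < 20) : th3 t j = 3 + eT (decide (t = 0)) j := by
  by_cases h : t = 0
  · subst h; interval_cases j <;> rfl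
  · interval_cases j <;> simp [th3, eT, h]

theorem tH_mod (t : ℕ) {j : ℕ} (hj : j < 20) : tH t j % 2 = qH j := by
  interval_cases j <;> simp only [tH, qH] <;> omega

theorem tE_mod (t a : ℕ) {j : ℕ} (hj : j < 20) : tE t a j % 2 = qE (decide (t = 0)) j := by
  by_cases h : t = 0
  · subst h; interval_cases j <;> simp [tE, qE] <;> omega
  · interval_cases j <;> simp [tE, qE, h] <;> omega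

theorem gh_eq (n : ℕ) {i : ℕ} (hi : i < 20) : gh (n + 2) i = n + 2 + dg i := by
  interval_cases i <;> simp only [gh, dg]

section

variable {x y N b s i : ℕ}

theorem aH_mod (hi : i < 20) (h1 : x + 1 = N) (h2 : y + 1 = b) (h3 : s + b = N) (hN : N % 2 = 0)
    (hb : b % 2 = 0) : aH x y s i % 2 = pAH i := by
  interval_cases i <;> simp only [aH, pAH] <;> omega

theorem aE_mod (hi : i < 20) (h1 : x + 1 = N) (h2 : y + 1 = b) (h3 : s + b = N) (hN : N % 2 = 0)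
    (hb : b % 2 = 0) : aE x y N b s i % 2 = pAE i := by
  interval_cases i <;> simp only [aE, pAE] <;> omega

theorem aH_modM (hi : i < 20) (h1 : x + 1 = N) (h2 : y + 1 = b) (h3 : s + b = N) (hN : N % 2 = 0)
    (hb : b % 2 = 0) (h0 : 0 < y) (h4 : 4 ≤ s) : (LN N b s i - aH x y s i) % 2 = pAH i := by
  have hb0 : ¬ b = 0 := by omega
  interval_cases i <;> simp only [LN, aH, pAH, if_neg hb0] <;> omega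

theorem aE_modM (hi : i < 20) (h1 : x + 1 = N) (h2 : y + 1 = b) (h3 : s + b = N) (hN : N % 2 = 0)
    (hb : b % 2 = 0) (h0 : 0 < y) (h4 : 4 ≤ s) : (LN N b s i - aE x y N b s i) % 2 = pAE i := by
  have hb0 : ¬ b = 0 := by omega
  interval_cases i <;> simp only [LN, aE, pAE, if_neg hb0] <;> omega

theorem zH_mod (hi : i < 20) (h1 : x + 3 = N) (h2 : y + 2 = N) (hN : N % 2 = 0) : zH x y i % 2 = pZH i := by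
  interval_cases i <;> simp only [zH, pZH] <;> omega

theorem zE_mod (hi : i < 20) (h1 : x + 3 = N) (h2 : y + 2 = N) (hN : N % 2 = 0) : zE x y N i % 2 = pZE i := by
  interval_cases i <;> simp only [zE, pZE] <;> omega

theorem zH_modM (hi : i < 20) (h1 : x + 3 = N) (h2 : y + 2 = N) (hN : N % 2 = 0) (h6 : 6 ≤ N) :
    (LN N 0 N i - zH x y i) % 2 = pZH i := by
  interval_cases i <;> simp only [LN, zH, pZH, if_true] <;> omega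

theorem zE_modM (hi : i < 20) (h1 : x + 3 = N) (h2 : y + 2 = N) (hN : N % 2 = 0) (h6 : 6 ≤ N) :
    (LN N 0 N i - zE x y N i) % 2 = pZE i := by
  interval_cases i <;> simp only [LN, zE, pZE, if_true] <;> omega

end

/-! ### The pairs which are left -/

set_option maxRecDepth 20000 in
theorem prAR0 : ∀ i j : Fin 20, i.1 ≠ 5 → 1 + cT true j.1 ≤ aC i.1 → dg i.1 ≤ eT true j.1 →
    pAH i.1 = qH j.1 → pAE i.1 = qE true j.1 →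
    (i.1, j.1) ∈ ([(0, 0), (0, 15), (1, 9), (1, 12), (1, 19), (2, 6), (2, 7), (2, 8), (2, 10), (2, 16), (2, 17), (4, 0), (4, 15), (6, 6), (6, 17), (7, 9), (8, 6), (8, 17), (10, 0), (10, 15), (11, 9), (11, 12), (11, 19), (12, 9), (13, 5), (13, 13), (14, 15), (16, 6), (16, 10), (16, 16), (16, 17), (18, 6), (18, 10), (18, 16), (18, 17), (19, 15)] : List (ℕ × ℕ)) := by
  decide

set_option maxRecDepth 20000 in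
theorem prAR1 : ∀ i j : Fin 20, i.1 ≠ 5 → 1 + cT false j.1 ≤ aC i.1 → dg i.1 ≤ eT false j.1 →
    pAH i.1 = qH j.1 → pAE i.1 = qE false j.1 →
    (i.1, j.1) ∈ ([(0, 0), (0, 15), (1, 9), (1, 12), (1, 19), (2, 6), (2, 7), (2, 8), (2, 10), (2, 16), (2, 17), (2, 18), (4, 0), (4, 15), (6, 6), (6, 16), (6, 17), (7, 9), (7, 19), (8, 6), (8, 16), (8, 17), (10, 0), (10, 15), (11, 9), (11, 12), (11, 19), (12, 9), (12, 19), (13, 5), (14, 15), (16, 6), (16, 10), (16, 16), (16, 17), (18, 6), (18, 10), (18, 16), (18, 17), (19, 15)] : List (ℕ × ℕ)) := by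
  decide

set_option maxRecDepth 20000 in
theorem prAM0 : ∀ i j : Fin 20, i.1 ≠ 5 → 1 + cT true j.1 ≤ aC i.1 → dg i.1 ≤ eT true j.1 →
    pAE i.1 = qH j.1 → pAH i.1 = qE true j.1 →
    (i.1, j.1) ∈ ([(0, 0), (0, 15), (1, 3), (1, 5), (1, 13), (2, 6), (2, 7), (2, 8), (2, 10), (2, 16), (2, 17), (3, 9), (4, 0), (4, 15), (6, 6), (6, 17), (8, 6), (8, 17), (10, 0), (10, 15), (11, 3), (11, 5), (11, 13), (13, 9), (14, 15), (15, 9), (16, 6), (16, 10), (16, 16), (16, 17), (18, 6), (18, 10), (18, 16), (18, 17), (19, 15)] : List (ℕ × ℕ)) := by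
  decide

set_option maxRecDepth 20000 in
theorem prAM1 : ∀ i j : Fin 20, i.1 ≠ 5 → 1 + cT false j.1 ≤ aC i.1 → dg i.1 ≤ eT false j.1 →
    pAE i.1 = qH j.1 → pAH i.1 = qE false j.1 →
    (i.1, j.1) ∈ ([(0, 0), (0, 15), (1, 3), (1, 5), (1, 13), (2, 6), (2, 7), (2, 8), (2, 10), (2, 16), (2, 17), (2, 18), (3, 9), (3, 19), (4, 0), (4, 15), (6, 6), (6, 16), (6, 17), (8, 6), (8, 16), (8, 17), (10, 0), (10, 15), (11, 3), (11, 5), (11, 13), (13, 9), (13, 19), (14, 15), (15, 9), (15, 19), (16, 6), (16, 10), (16, 16), (16, 17), (18, 6), (18, 10), (18, 16), (18, 17), (19, 15)] : List (ℕ × ℕ)) := by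
  decide

set_option maxRecDepth 20000 in
theorem prZR0 : ∀ i j : Fin 20, i.1 ≠ 5 → 1 + cT true j.1 ≤ zC i.1 → dg i.1 ≤ eT true j.1 →
    pZH i.1 = qH j.1 → pZE i.1 = qE true j.1 →
    (i.1, j.1) ∈ ([(0, 0), (0, 15), (1, 9), (1, 12), (1, 19), (2, 6), (2, 7), (2, 8), (2, 10), (2, 16), (2, 17), (4, 0), (4, 15), (6, 6), (6, 17), (7, 9), (8, 6), (8, 17), (10, 6), (10, 10), (11, 6), (11, 7), (11, 8), (11, 10), (11, 16), (11, 17), (12, 9), (13, 6), (13, 10), (14, 15), (16, 6), (16, 7), (16, 8), (16, 10), (16, 16), (16, 17), (18, 6), (18, 7), (18, 8), (18, 10), (18, 16), (18, 17), (19, 15)] : List (ℕ × ℕ)) := by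
  decide

set_option maxRecDepth 20000 in
theorem prZR1 : ∀ i j : Fin 20, i.1 ≠ 5 → 1 + cT false j.1 ≤ zC i.1 → dg i.1 ≤ eT false j.1 →
    pZH i.1 = qH j.1 → pZE i.1 = qE false j.1 →
    (i.1, j.1) ∈ ([(0, 0), (0, 15), (1, 9), (1, 12), (1, 19), (2, 6), (2, 7), (2, 8), (2, 10), (2, 16), (2, 17), (2, 18), (4, 0), (4, 15), (6, 6), (6, 16), (6, 17), (7, 9), (7, 19), (8, 6), (8, 16), (8, 17), (10, 6), (10, 10), (10, 16), (11, 6), (11, 7), (11, 8), (11, 10), (11, 16), (11, 17), (11, 18), (12, 9), (12, 19), (13, 6), (13, 10), (13, 16), (14, 15), (16, 6), (16, 7), (16, 8), (16, 10), (16, 16), (16, 17), (16, 18), (18, 6), (18, 7), (18, 8), (18, 10), (18, 16), (18, 17), (18, 18), (19, 15)] : List (ℕ × ℕ)) := by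
  decide

set_option maxRecDepth 20000 in
theorem prZM0 : ∀ i j : Fin 20, i.1 ≠ 5 → 1 + cT true j.1 ≤ zC i.1 → dg i.1 ≤ eT true j.1 →
    pZE i.1 = qH j.1 → pZH i.1 = qE true j.1 →
    (i.1, j.1) ∈ ([(0, 0), (0, 15), (1, 3), (1, 5), (1, 13), (2, 6), (2, 7), (2, 8), (2, 10), (2, 16), (2, 17), (3, 9), (4, 0), (4, 15), (6, 6), (6, 17), (8, 6), (8, 17), (10, 6), (10, 10), (11, 6), (11, 7), (11, 8), (11, 10), (11, 16), (11, 17), (13, 6), (13, 10), (14, 15), (15, 9), (16, 6), (16, 7), (16, 8), (16, 10), (16, 16), (16, 17), (18, 6), (18, 7), (18, 8), (18, 10), (18, 16), (18, 17), (19, 15)] : List (ℕ × ℕ)) := by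
  decide

set_option maxRecDepth 20000 in
theorem prZM1 : ∀ i j : Fin 20, i.1 ≠ 5 → 1 + cT false j.1 ≤ zC i.1 → dg i.1 ≤ eT false j.1 →
    pZE i.1 = qH j.1 → pZH i.1 = qE false j.1 →
    (i.1, j.1) ∈ ([(0, 0), (0, 15), (1, 3), (1, 5), (1, 13), (2, 6), (2, 7), (2, 8), (2, 10), (2, 16), (2, 17), (2, 18), (3, 9), (3, 19), (4, 0), (4, 15), (6, 6), (6, 16), (6, 17), (8, 6), (8, 16), (8, 17), (10, 6), (10, 10), (10, 16), (11, 6), (11, 7), (11, 8), (11, 10), (11, 16), (11, 17), (11, 18), (13, 6), (13, 10), (13, 16), (14, 15), (15, 9), (15, 19), (16, 6), (16, 7), (16, 8), (16, 10), (16, 16), (16, 17), (16, 18), (18, 6), (18, 7), (18, 8), (18, 10), (18, 16), (18, 17), (18, 18), (19, 15)] : List (ℕ × ℕ)) := by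
  decide

set_option maxHeartbeats 4000000 in
theorem tcmpAR {x y N b s n A t a m i j : ℕ} (hi : i < 20) (h5 : i ≠ 5) (hj : j < 20) (h1 : x + 1 = N)
    (h2 : y + 1 = b) (h0 : 0 < y) (h3 : s + b = N) (h4 : 4 ≤ s) (hb2 : b % 2 = 0) (hN : N = 2 * (n + 1 + A)) (hn : 1 ≤ n)
    (hk : n + 5 + 2 * A = 3 * t + 2 * a + m + 6) (hm : 1 ≤ m) (ha : 1 ≤ a) (h10 : 10 ≤ n + 5 + 2 * A)
    (e1 : LN N b s i = tL t a j) (e2 : aC i = tC t m j) (e3 : aH x y s i = tH t j)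
    (e4 : aE x y N b s i = tE t a j) (e5 : gh (n + 2) i = th3 t j) : i = 10 ∧ j = 15 ∧ t = 0 := by
  have hb : ¬ b = 0 := by omega
  have c1 := tC_eq t m hj
  have c2 := th3_eq t hj
  have c3 := gh_eq n hi
  have c4 := tH_mod t hj
  have c5 := tE_mod t a hj
  have c6 := aH_mod hi h1 h2 h3 (by omega) hb2
  have c7 := aE_mod hi h1 h2 h3 (by omega) hb2
  rw [e3, c4] at c6
  rw [e4, c5] at c7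
  by_cases ht : t = 0
  · rw [decide_eq_true ht] at c1 c2 c7
    have key := prAR0 ⟨i, hi⟩ ⟨j, hj⟩ h5 (show 1 + cT true j ≤ aC i by omega) (show dg i ≤ eT true j by omega) c6.symm c7.symm
    subst ht
    clear c1 c2 c3 c4 c5 c6 c7
    simp only [List.mem_cons, Prod.mk.injEq, List.not_mem_nil, or_false] at key
    rcases key with ⟨rfl, rfl⟩ | ⟨rfl, rfl⟩ | ⟨rfl, rfl⟩ | ⟨rfl, rfl⟩ | ⟨rfl, rfl⟩ | ⟨rfl, rfl⟩ | ⟨rfl, rfl⟩ | ⟨rfl, rfl⟩ | ⟨rfl, rfl⟩ | ⟨rfl, rfl⟩ | ⟨rfl, rfl⟩ | ⟨rfl, rfl⟩ | ⟨rfl, rfl⟩ | ⟨rfl, rfl⟩ | ⟨rfl, rfl⟩ | ⟨rfl, rfl⟩ | ⟨rfl, rfl⟩ | ⟨rfl, rfl⟩ | ⟨rfl, rfl⟩ | ⟨rfl, rfl⟩ | ⟨rfl, rfl⟩ | ⟨rfl, rfl⟩ | ⟨rfl, rfl⟩ | ⟨rfl, rfl⟩ | ⟨rfl, rfl⟩ | ⟨rfl, rfl⟩ | ⟨rfl, rfl⟩ | ⟨rfl, rfl⟩ | ⟨rfl, rfl⟩ | ⟨rfl, rfl⟩ | ⟨rfl, rfl⟩ | ⟨rfl, rfl⟩ | ⟨rfl, rfl⟩ | ⟨rfl,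 rfl⟩ | ⟨rfl, rfl⟩ | ⟨rfl, rfl⟩ <;>
      simp only [LN, aC, aH, aE, gh, tL, tC, tH, tE, th3, if_neg hb, if_true] at e1 e2 e3 e4 e5 <;> omega
  · rw [decide_eq_false ht] at c1 c2 c7
    have key := prAR1 ⟨i, hi⟩ ⟨j, hj⟩ h5 (show 1 + cT false j ≤ aC i by omega) (show dg i ≤ eT false j by omega) c6.symm c7.symm
    clear c1 c2 c3 c4 c5 c6 c7
    simp only [List.mem_cons, Prod.mk.injEq, List.not_mem_nil, or_false] at key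
    rcases key with ⟨rfl, rfl⟩ | ⟨rfl, rfl⟩ | ⟨rfl, rfl⟩ | ⟨rfl, rfl⟩ | ⟨rfl, rfl⟩ | ⟨rfl, rfl⟩ | ⟨rfl, rfl⟩ | ⟨rfl, rfl⟩ | ⟨rfl, rfl⟩ | ⟨rfl, rfl⟩ | ⟨rfl, rfl⟩ | ⟨rfl, rfl⟩ | ⟨rfl, rfl⟩ | ⟨rfl, rfl⟩ | ⟨rfl, rfl⟩ | ⟨rfl, rfl⟩ | ⟨rfl, rfl⟩ | ⟨rfl, rfl⟩ | ⟨rfl, rfl⟩ | ⟨rfl, rfl⟩ | ⟨rfl, rfl⟩ | ⟨rfl, rfl⟩ | ⟨rfl, rfl⟩ | ⟨rfl, rfl⟩ | ⟨rfl, rfl⟩ | ⟨rfl, rfl⟩ | ⟨rfl, rfl⟩ | ⟨rfl, rfl⟩ | ⟨rfl, rfl⟩ | ⟨rfl, rfl⟩ | ⟨rfl, rfl⟩ | ⟨rfl, rfl⟩ | ⟨rfl, rfl⟩ | ⟨rfl, rfl⟩ | ⟨rfl, rfl⟩ | ⟨rfl, rfl⟩ | ⟨rfl, rfl⟩ | ⟨rfl, rfl⟩ | ⟨rfl, rfl⟩ | ⟨rfl, rfl⟩ <;>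
      simp only [LN, aC, aH, aE, gh, tL, tC, tH, tE, th3, if_neg hb, if_neg ht] at e1 e2 e3 e4 e5 <;> omega

set_option maxHeartbeats 4000000 in
theorem tcmpAM {x y N b s n A t a m i j : ℕ} (hi : i < 20) (h5 : i ≠ 5) (hj : j < 20) (h1 : x + 1 = N)
    (h2 : y + 1 = b) (h0 : 0 < y) (h3 : s + b = N) (h4 : 4 ≤ s) (hb2 : b % 2 = 0) (hN : N = 2 * (n + 1 + A)) (hn : 1 ≤ n)
    (hk : n + 5 + 2 * A = 3 * t + 2 * a + m + 6) (hm : 1 ≤ m) (ha : 1 ≤ a) (h10 : 10 ≤ n + 5 + 2 * A)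
    (e1 : LN N b s i = tL t a j) (e2 : aC i = tC t m j) (e3 : LN N b s i - aE x y N b s i = tH t j)
    (e4 : LN N b s i - aH x y s i = tE t a j) (e5 : gh (n + 2) i = th3 t j) : i = 10 ∧ j = 15 ∧ t = 0 := by
  have hb : ¬ b = 0 := by omega
  have c1 := tC_eq t m hj
  have c2 := th3_eq t hj
  have c3 := gh_eq n hi
  have c4 := tH_mod t hj
  have c5 := tE_mod t a hj
  have c6 := aE_modM hi h1 h2 h3 (by omega) hb2 h0 h4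
  have c7 := aH_modM hi h1 h2 h3 (by omega) hb2 h0 h4
  rw [e3, c4] at c6
  rw [e4, c5] at c7
  by_cases ht : t = 0
  · rw [decide_eq_true ht] at c1 c2 c7
    have key := prAM0 ⟨i, hi⟩ ⟨j, hj⟩ h5 (show 1 + cT true j ≤ aC i by omega) (show dg i ≤ eT true j by omega) c6.symm c7.symm
    subst ht
    clear c1 c2 c3 c4 c5 c6 c7
    simp only [List.mem_cons, Prod.mk.injEq, List.not_mem_nil, or_false] at key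
    rcases key with ⟨rfl, rfl⟩ | ⟨rfl, rfl⟩ | ⟨rfl, rfl⟩ | ⟨rfl, rfl⟩ | ⟨rfl, rfl⟩ | ⟨rfl, rfl⟩ | ⟨rfl, rfl⟩ | ⟨rfl, rfl⟩ | ⟨rfl, rfl⟩ | ⟨rfl, rfl⟩ | ⟨rfl, rfl⟩ | ⟨rfl, rfl⟩ | ⟨rfl, rfl⟩ | ⟨rfl, rfl⟩ | ⟨rfl, rfl⟩ | ⟨rfl, rfl⟩ | ⟨rfl, rfl⟩ | ⟨rfl, rfl⟩ | ⟨rfl, rfl⟩ | ⟨rfl, rfl⟩ | ⟨rfl, rfl⟩ | ⟨rfl, rfl⟩ | ⟨rfl, rfl⟩ | ⟨rfl, rfl⟩ | ⟨rfl, rfl⟩ | ⟨rfl, rfl⟩ | ⟨rfl, rfl⟩ | ⟨rfl, rfl⟩ | ⟨rfl, rfl⟩ | ⟨rfl, rfl⟩ | ⟨rfl, rfl⟩ | ⟨rfl, rfl⟩ | ⟨rfl, rfl⟩ | ⟨rfl, rfl⟩ | ⟨rfl, rfl⟩ <;>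
      simp only [LN, aC, aH, aE, gh, tL, tC, tH, tE, th3, if_neg hb, if_true] at e1 e2 e3 e4 e5 <;> omega
  · rw [decide_eq_false ht] at c1 c2 c7
    have key := prAM1 ⟨i, hi⟩ ⟨j, hj⟩ h5 (show 1 + cT false j ≤ aC i by omega) (show dg i ≤ eT false j by omega) c6.symm c7.symm
    clear c1 c2 c3 c4 c5 c6 c7
    simp only [List.mem_cons, Prod.mk.injEq, List.not_mem_nil, or_false] at key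
    rcases key with ⟨rfl, rfl⟩ | ⟨rfl, rfl⟩ | ⟨rfl, rfl⟩ | ⟨rfl, rfl⟩ | ⟨rfl, rfl⟩ | ⟨rfl, rfl⟩ | ⟨rfl, rfl⟩ | ⟨rfl, rfl⟩ | ⟨rfl, rfl⟩ | ⟨rfl, rfl⟩ | ⟨rfl, rfl⟩ | ⟨rfl, rfl⟩ | ⟨rfl, rfl⟩ | ⟨rfl, rfl⟩ | ⟨rfl, rfl⟩ | ⟨rfl, rfl⟩ | ⟨rfl, rfl⟩ | ⟨rfl, rfl⟩ | ⟨rfl, rfl⟩ | ⟨rfl, rfl⟩ | ⟨rfl, rfl⟩ | ⟨rfl, rfl⟩ | ⟨rfl, rfl⟩ | ⟨rfl, rfl⟩ | ⟨rfl, rfl⟩ | ⟨rfl, rfl⟩ | ⟨rfl, rfl⟩ | ⟨rfl, rfl⟩ | ⟨rfl, rfl⟩ | ⟨rfl, rfl⟩ | ⟨rfl, rfl⟩ | ⟨rfl, rfl⟩ | ⟨rfl, rfl⟩ | ⟨rfl, rfl⟩ | ⟨rfl, rfl⟩ | ⟨rfl, rfl⟩ | ⟨rfl, rfl⟩ | ⟨rfl, rfl⟩ | ⟨rfl, rfl⟩ | ⟨rfl, rfl⟩ | ⟨rfl, rfl⟩ <;>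
      simp only [LN, aC, aH, aE, gh, tL, tC, tH, tE, th3, if_neg hb, if_neg ht] at e1 e2 e3 e4 e5 <;> omega

set_option maxHeartbeats 4000000 in
theorem tcmpZR {x y N n A t a m i j : ℕ} (hi : i < 20) (h5 : i ≠ 5) (hj : j < 20) (h1 : x + 3 = N)
    (h2 : y + 2 = N) (hN : N = 2 * (n + 1 + A)) (hn : 1 ≤ n) (hA : 1 ≤ A)
    (hk : n + 5 + 2 * A = 3 * t + 2 * a + m + 6) (hm : 1 ≤ m) (ha : 1 ≤ a) (h10 : 10 ≤ n + 5 + 2 * A)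
    (e1 : LN N 0 N i = tL t a j) (e2 : zC i = tC t m j) (e3 : zH x y i = tH t j)
    (e4 : zE x y N i = tE t a j) (e5 : gh (n + 2) i = th3 t j) : i = 0 ∧ j = 15 ∧ t = 0 := by
  have c1 := tC_eq t m hj
  have c2 := th3_eq t hj
  have c3 := gh_eq n hi
  have c4 := tH_mod t hj
  have c5 := tE_mod t a hj
  have c6 := zH_mod hi h1 h2 (by omega)
  have c7 := zE_mod hi h1 h2 (by omega)
  rw [e3, c4] at c6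
  rw [e4, c5] at c7
  by_cases ht : t = 0
  · rw [decide_eq_true ht] at c1 c2 c7
    have key := prZR0 ⟨i, hi⟩ ⟨j, hj⟩ h5 (show 1 + cT true j ≤ zC i by omega) (show dg i ≤ eT true j by omega) c6.symm c7.symm
    subst ht
    clear c1 c2 c3 c4 c5 c6 c7
    simp only [List.mem_cons, Prod.mk.injEq, List.not_mem_nil, or_false] at key
    rcases key with ⟨rfl, rfl⟩ | ⟨rfl, rfl⟩ | ⟨rfl, rfl⟩ | ⟨rfl, rfl⟩ | ⟨rfl, rfl⟩ | ⟨rfl, rfl⟩ | ⟨rfl, rfl⟩ | ⟨rfl, rfl⟩ | ⟨rfl, rfl⟩ | ⟨rfl, rfl⟩ | ⟨rfl, rfl⟩ | ⟨rfl, rfl⟩ | ⟨rfl, rfl⟩ | ⟨rfl, rfl⟩ | ⟨rfl, rfl⟩ | ⟨rfl, rfl⟩ | ⟨rfl, rfl⟩ | ⟨rfl, rfl⟩ | ⟨rfl, rfl⟩ | ⟨rfl, rfl⟩ | ⟨rfl, rfl⟩ | ⟨rfl, rfl⟩ | ⟨rfl, rfl⟩ | ⟨rfl, rfl⟩ | ⟨rfl, rfl⟩ | ⟨rfl, rfl⟩ | ⟨rfl, rfl⟩ | ⟨rfl, rfl⟩ | ⟨rfl, rfl⟩ | ⟨rfl, rfl⟩ | ⟨rfl, rfl⟩ | ⟨rfl, rfl⟩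 | ⟨rfl, rfl⟩ | ⟨rfl, rfl⟩ | ⟨rfl, rfl⟩ | ⟨rfl, rfl⟩ | ⟨rfl, rfl⟩ | ⟨rfl, rfl⟩ | ⟨rfl, rfl⟩ | ⟨rfl, rfl⟩ | ⟨rfl, rfl⟩ | ⟨rfl, rfl⟩ | ⟨rfl, rfl⟩ <;>
      simp only [LN, zC, zH, zE, gh, tL, tC, tH, tE, th3, if_true] at e1 e2 e3 e4 e5 <;> omega
  · rw [decide_eq_false ht] at c1 c2 c7
    have key := prZR1 ⟨i, hi⟩ ⟨j, hj⟩ h5 (show 1 + cT false j ≤ zC i by omega) (show dg i ≤ eT false j by omega) c6.symm c7.symm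
    clear c1 c2 c3 c4 c5 c6 c7
    simp only [List.mem_cons, Prod.mk.injEq, List.not_mem_nil, or_false] at key
    rcases key with ⟨rfl, rfl⟩ | ⟨rfl, rfl⟩ | ⟨rfl, rfl⟩ | ⟨rfl, rfl⟩ | ⟨rfl, rfl⟩ | ⟨rfl, rfl⟩ | ⟨rfl, rfl⟩ | ⟨rfl, rfl⟩ | ⟨rfl, rfl⟩ | ⟨rfl, rfl⟩ | ⟨rfl, rfl⟩ | ⟨rfl, rfl⟩ | ⟨rfl, rfl⟩ | ⟨rfl, rfl⟩ | ⟨rfl, rfl⟩ | ⟨rfl, rfl⟩ | ⟨rfl, rfl⟩ | ⟨rfl, rfl⟩ | ⟨rfl, rfl⟩ | ⟨rfl, rfl⟩ | ⟨rfl, rfl⟩ | ⟨rfl, rfl⟩ | ⟨rfl, rfl⟩ | ⟨rfl, rfl⟩ | ⟨rfl, rfl⟩ | ⟨rfl, rfl⟩ | ⟨rfl, rfl⟩ | ⟨rfl, rfl⟩ | ⟨rfl, rfl⟩ | ⟨rfl, rfl⟩ | ⟨rfl, rfl⟩ | ⟨rfl, rfl⟩ | ⟨rfl, rfl⟩ | ⟨rfl, rfl⟩ | ⟨rfl, rfl⟩ | ⟨rfl, rfl⟩ | ⟨rfl, rfl⟩ | ⟨rfl, rfl⟩ | ⟨rfl, rfl⟩ | ⟨rfl, rfl⟩ | ⟨rfl, rfl⟩ | ⟨rfl, rfl⟩ | ⟨rfl, rfl⟩ | ⟨rfl, rfl⟩ | ⟨rfl, rfl⟩ | ⟨rfl, rfl⟩ | ⟨rfl, rfl⟩ | ⟨rfl, rfl⟩ | ⟨rfl, rfl⟩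 | ⟨rfl, rfl⟩ | ⟨rfl, rfl⟩ | ⟨rfl, rfl⟩ | ⟨rfl, rfl⟩ <;>
      simp only [LN, zC, zH, zE, gh, tL, tC, tH, tE, th3, if_true, if_neg ht] at e1 e2 e3 e4 e5 <;> omega

set_option maxHeartbeats 4000000 in
theorem tcmpZM {x y N n A t a m i j : ℕ} (hi : i < 20) (h5 : i ≠ 5) (hj : j < 20) (h1 : x + 3 = N)
    (h2 : y + 2 = N) (hN : N = 2 * (n + 1 + A)) (hn : 1 ≤ n) (hA : 1 ≤ A)
    (hk : n + 5 + 2 * A = 3 * t + 2 * a + m + 6) (hm : 1 ≤ m) (ha : 1 ≤ a) (h10 : 10 ≤ n + 5 + 2 * A)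
    (e1 : LN N 0 N i = tL t a j) (e2 : zC i = tC t m j) (e3 : LN N 0 N i - zE x y N i = tH t j)
    (e4 : LN N 0 N i - zH x y i = tE t a j) (e5 : gh (n + 2) i = th3 t j) : i = 13 ∧ j = 6 ∧ t = 0 := by
  have c1 := tC_eq t m hj
  have c2 := th3_eq t hj
  have c3 := gh_eq n hi
  have c4 := tH_mod t hj
  have c5 := tE_mod t a hj
  have c6 := zE_modM hi h1 h2 (by omega) (by omega)
  have c7 := zH_modM hi h1 h2 (by omega) (by omega)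
  rw [e3, c4] at c6
  rw [e4, c5] at c7
  by_cases ht : t = 0
  · rw [decide_eq_true ht] at c1 c2 c7
    have key := prZM0 ⟨i, hi⟩ ⟨j, hj⟩ h5 (show 1 + cT true j ≤ zC i by omega) (show dg i ≤ eT true j by omega) c6.symm c7.symm
    subst ht
    clear c1 c2 c3 c4 c5 c6 c7
    simp only [List.mem_cons, Prod.mk.injEq, List.not_mem_nil, or_false] at key
    rcases key with ⟨rfl, rfl⟩ | ⟨rfl, rfl⟩ | ⟨rfl, rfl⟩ | ⟨rfl, rfl⟩ | ⟨rfl, rfl⟩ | ⟨rfl, rfl⟩ | ⟨rfl, rfl⟩ | ⟨rfl, rfl⟩ | ⟨rfl, rfl⟩ | ⟨rfl, rfl⟩ | ⟨rfl, rfl⟩ | ⟨rfl, rfl⟩ | ⟨rfl, rfl⟩ | ⟨rfl, rfl⟩ | ⟨rfl, rfl⟩ | ⟨rfl, rfl⟩ | ⟨rfl, rfl⟩ | ⟨rfl, rfl⟩ | ⟨rfl, rfl⟩ | ⟨rfl, rfl⟩ | ⟨rfl, rfl⟩ | ⟨rfl, rfl⟩ | ⟨rfl, rfl⟩ | ⟨rfl, rfl⟩ | ⟨rfl, rfl⟩ | ⟨rfl, rfl⟩ | ⟨rfl, rfl⟩ | ⟨rfl, rfl⟩ | ⟨rfl, rfl⟩ | ⟨rfl, rfl⟩ | ⟨rfl,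 rfl⟩ | ⟨rfl, rfl⟩ | ⟨rfl, rfl⟩ | ⟨rfl, rfl⟩ | ⟨rfl, rfl⟩ | ⟨rfl, rfl⟩ | ⟨rfl, rfl⟩ | ⟨rfl, rfl⟩ | ⟨rfl, rfl⟩ | ⟨rfl, rfl⟩ | ⟨rfl, rfl⟩ | ⟨rfl, rfl⟩ | ⟨rfl, rfl⟩ <;>
      simp only [LN, zC, zH, zE, gh, tL, tC, tH, tE, th3, if_true] at e1 e2 e3 e4 e5 <;> omega
  · rw [decide_eq_false ht] at c1 c2 c7
    have key := prZM1 ⟨i, hi⟩ ⟨j, hj⟩ h5 (show 1 + cT false j ≤ zC i by omega) (show dg i ≤ eT false j by omega) c6.symm c7.symm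
    clear c1 c2 c3 c4 c5 c6 c7
    simp only [List.mem_cons, Prod.mk.injEq, List.not_mem_nil, or_false] at key
    rcases key with ⟨rfl, rfl⟩ | ⟨rfl, rfl⟩ | ⟨rfl, rfl⟩ | ⟨rfl, rfl⟩ | ⟨rfl, rfl⟩ | ⟨rfl, rfl⟩ | ⟨rfl, rfl⟩ | ⟨rfl, rfl⟩ | ⟨rfl, rfl⟩ | ⟨rfl, rfl⟩ | ⟨rfl, rfl⟩ | ⟨rfl, rfl⟩ | ⟨rfl, rfl⟩ | ⟨rfl, rfl⟩ | ⟨rfl, rfl⟩ | ⟨rfl, rfl⟩ | ⟨rfl, rfl⟩ | ⟨rfl, rfl⟩ | ⟨rfl, rfl⟩ | ⟨rfl, rfl⟩ | ⟨rfl, rfl⟩ | ⟨rfl, rfl⟩ | ⟨rfl, rfl⟩ | ⟨rfl, rfl⟩ | ⟨rfl, rfl⟩ | ⟨rfl, rfl⟩ | ⟨rfl, rfl⟩ | ⟨rfl, rfl⟩ | ⟨rfl, rfl⟩ | ⟨rfl, rfl⟩ | ⟨rfl, rfl⟩ | ⟨rfl, rfl⟩ | ⟨rfl, rfl⟩ | ⟨rfl, rfl⟩ | ⟨rfl, rfl⟩ | ⟨rfl, rfl⟩ | ⟨rfl, rfl⟩ | ⟨rfl, rfl⟩ | ⟨rfl, rfl⟩ | ⟨rfl, rfl⟩ | ⟨rfl, rfl⟩ | ⟨rfl, rfl⟩ | ⟨rfl, rfl⟩ | ⟨rfl, rfl⟩ | ⟨rfl, rfl⟩ | ⟨rfl, rfl⟩ | ⟨rfl, rfl⟩ | ⟨rfl, rfl⟩ | ⟨rfl, rfl⟩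 | ⟨rfl, rfl⟩ | ⟨rfl, rfl⟩ | ⟨rfl, rfl⟩ | ⟨rfl, rfl⟩ <;>
      simp only [LN, zC, zH, zE, gh, tL, tC, tH, tE, th3, if_true, if_neg ht] at e1 e2 e3 e4 e5 <;> omega

end TL

end Pool.OddHC
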